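import Pool.Agent.Helper669.Forcing

/-!
# The combinatorial sentences, and their translations into the forcing language
-/

set_option autoImplicit false

namespace Pool.Agent.TH777.Y

open Pool.Agent.Helper669.Forcing

/-- `S` is a slalom of width `h`: every `S n` has at most `h n` elements. -/
def Slalom (h : ℕ → ℕ) (S : ℕ → ℕ → Prop) : Prop :=
  ∀ (n : ℕ) (t : Finset ℕ), h n < t.card → ∃ v ∈ t, ¬ S n v

/-- There is a family, indexed by `K`, of functions bounded by `B`, such that no family of slaloms
of width `2 ^ n` indexed by `M` captures all of them. -/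
def NotCap (K M : Type) (B : ℕ → ℕ) : Prop :=
  ∃ y : K → ℕ → ℕ, (∀ l n, y l n ≤ B n) ∧
    ∀ S : M → ℕ → ℕ → Prop, (∀ i, Slalom (fun n => 2 ^ n) (S i)) →
      ∃ l : K, ∀ i : M, ∀ N, ∃ n, N ≤ n ∧ ¬ S i n (y l n)

/-- Every family, indexed by `K`, of functions bounded by `b` is captured by a slalom of
width `n`. -/
def Cap (K : Type) (b : ℕ → ℕ) : Prop :=
  ∀ x : K → ℕ → ℕ, (∀ k n, x k n < b n) →
    ∃ S : ℕ → ℕ → Prop, Slalom (fun n => n) S ∧ ∀ k, ∃ N, ∀ n, N ≤ n → S n (x k n)

/-- Every family of functions indexed by `K` is eventually dominated by a function. -/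
def Dom (K : Type) : Prop :=
  ∀ x : K → ℕ → ℕ, ∃ g : ℕ → ℕ, ∀ k, ∃ N, ∀ n, N ≤ n → x k n ≤ g n

/-- There is a family of slaloms of width `n`, indexed by `Ω`, such that every function bounded
by `b` is captured by one of them. -/
def CapAll (Ω : Type) (b : ℕ → ℕ) : Prop :=
  ∃ S : Ω → ℕ → ℕ → Prop, (∀ β, Slalom (fun n => n) (S β)) ∧
    ∀ x : ℕ → ℕ, (∀ n, x n < b n) → ∃ β, ∃ N, ∀ n, N ≤ n → S β n (x n)

/-- There is a family of functions indexed by `Ω` such that every function is eventually dominated
by one of them. -/
def DomAll (Ω : Type) : Prop :=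
  ∃ g : Ω → ℕ → ℕ, ∀ x : ℕ → ℕ, ∃ β, ∃ N, ∀ n, N ≤ n → x n ≤ g β n

/-- The bound which is needed to localize the members of the Yorioka ideal of `g`. -/
def bb (g : ℕ → ℕ) (n : ℕ) : ℕ := 2 ^ (2 ^ n * g (2 ^ (n * n)))

/-- The combinatorial sentence: for every `m`, some family of functions bounded by `f m` and
indexed by `K m` is not captured by a slalom of width `2 ^ n`, but every family, indexed by `K m`,
of functions with the bound `bb (f (m + 1))` is captured by a slalom of width `n`, and every
family of functions indexed by `K m` is eventually dominated by one function. -/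
def PhiFor (K : ℕ → Type) (f : ℕ → ℕ → ℕ) : Prop :=
  ∀ m, NotCap (K m) Unit (f m) ∧ Cap (K m) (bb (f (m + 1))) ∧ Dom (K m)

/-- The combinatorial sentence: some `K`-indexed family of functions bounded by `f` is not
captured by a slalom of width `2 ^ n`, some `L`-indexed family of functions bounded by `f` is not
captured by `Ω` many slaloms of width `2 ^ n`, but `K` many functions with the bound `bb id` are
captured by one slalom of width `n` and all functions with this bound by `Ω` many such slaloms;
`K` many functions are eventually dominated by one function, and all functions by `Ω` many. -/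
def PsiFor (K Ω L : Type) (f : ℕ → ℕ) : Prop :=
  NotCap K Unit f ∧ NotCap L Ω f ∧ Cap K (bb fun n => n) ∧ Dom K ∧
    CapAll Ω (bb fun n => n) ∧ DomAll Ω

section Sentence

variable {P : Type} [Preorder P]

/-- Forcing version of `Slalom`. -/
def SlalomN (h : ℕ → ℕ) (S : ℕ → ℕ → Set P) : Set P :=
  fall fun n => fall fun t : Finset ℕ => fimp (fground (h n < t.card))
    (fex fun v => fand (fground (v ∈ t)) (fnot (meets (S n v))))

/-- Forcing version of: the values of `x` are at most `B n`. -/
def LeN (x : ℕ → ℕ → Set P) (B : ℕ → ℕ) : Set P :=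
  fall fun n => fall fun v => fimp (meets (x n v)) (fground (v ≤ B n))

/-- Forcing version of: the values of `x` are smaller than `b n`. -/
def LtN (x : ℕ → ℕ → Set P) (b : ℕ → ℕ) : Set P :=
  fall fun n => fall fun v => fimp (meets (x n v)) (fground (v < b n))

/-- Forcing version of: `S` captures `x`. -/
def CapturesN (S x : ℕ → ℕ → Set P) : Set P :=
  fex fun N => fall fun n => fimp (fground (N ≤ n))
    (fex fun v => fand (meets (x n v)) (meets (S n v)))

/-- Forcing version of: `g` eventually dominates `x`. -/
def DominatesN (g x : ℕ → ℕ → Set P) : Set P :=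
  fex fun N => fall fun n => fimp (fground (N ≤ n))
    (fex fun a => fex fun b => fand (meets (x n a)) (fand (meets (g n b)) (fground (a ≤ b))))

/-- Forcing version of `NotCap`; functions are given by names of their graphs. -/
def NotCapN (P : Type) [Preorder P] (K M : Type) (B : ℕ → ℕ) : Set P :=
  fex fun y : K → ℕ → ℕ → Set P => fand (fall fun l => fand (IsFun (y l)) (LeN (y l) B))
    (fall fun S : M → ℕ → ℕ → Set P => fimp (fall fun i => SlalomN (fun n => 2 ^ n) (S i))
      (fex fun l => fall fun i => fall fun N => fex fun n => fand (fground (N ≤ n))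
        (fex fun v => fand (meets (y l n v)) (fnot (meets (S i n v))))))

/-- Forcing version of `Cap`. -/
def CapN (P : Type) [Preorder P] (K : Type) (b : ℕ → ℕ) : Set P :=
  fall fun x : K → ℕ → ℕ → Set P => fimp (fall fun k => fand (IsFun (x k)) (LtN (x k) b))
    (fex fun S : ℕ → ℕ → Set P => fand (SlalomN (fun n => n) S)
      (fall fun k => CapturesN S (x k)))

/-- Forcing version of `Dom`. -/
def DomN (P : Type) [Preorder P] (K : Type) : Set P :=
  fall fun x : K → ℕ → ℕ → Set P => fimp (fall fun k => IsFun (x k))
    (fex fun g : ℕ → ℕ → Set P => fand (IsFun g) (fall fun k => DominatesN g (x k)))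

/-- Forcing version of `CapAll`. -/
def CapAllN (P : Type) [Preorder P] (Ω : Type) (b : ℕ → ℕ) : Set P :=
  fex fun S : Ω → ℕ → ℕ → Set P => fand (fall fun β => SlalomN (fun n => n) (S β))
    (fall fun x : ℕ → ℕ → Set P => fimp (fand (IsFun x) (LtN x b))
      (fex fun β => CapturesN (S β) x))

/-- Forcing version of `DomAll`. -/
def DomAllN (P : Type) [Preorder P] (Ω : Type) : Set P :=
  fex fun g : Ω → ℕ → ℕ → Set P => fand (fall fun β => IsFun (g β))
    (fall fun x : ℕ → ℕ → Set P => fimp (IsFun x) (fex fun β => DominatesN (g β) x))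

/-- The translation of `PhiFor` into the forcing language. -/
def PhiHolds (P : Type) [Preorder P] (K : ℕ → Type) (f : ℕ → ℕ → ℕ) : Set P :=
  fall fun m => fand (NotCapN P (K m) Unit (f m))
    (fand (CapN P (K m) (bb (f (m + 1)))) (DomN P (K m)))

/-- The translation of `PsiFor` into the forcing language. -/
def PsiHolds (P : Type) [Preorder P] (K Ω L : Type) (f : ℕ → ℕ) : Set P :=
  fand (NotCapN P K Unit f) (fand (NotCapN P L Ω f) (fand (CapN P K (bb fun n => n))
    (fand (DomN P K) (fand (CapAllN P Ω (bb fun n => n)) (DomAllN P Ω)))))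

end Sentence

end Pool.Agent.TH777.Y
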