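import Pool.Agent.TH777.Y.Merge
import Pool.Agent.TH777.Y.Sent

/-!
# The growth of the functions
-/

set_option autoImplicit false

namespace Pool.Agent.TH777.Y

open Filter

theorem bb_mono {g g' : ℕ → ℕ} (h : ∀ n, g n ≤ g' n) (n : ℕ) : bb g n ≤ bb g' n :=
  Nat.pow_le_pow_right (by norm_num) (Nat.mul_le_mul_left _ (h _))

/-- The points at which the functions grow. -/
def ss : ℕ → ℕ
  | 0 => 0
  | t + 1 => ss t + (EE (bb (· + ss t)) t)^[t] (2 ^ ss t + 1) + 1

theorem ss_succ (t : ℕ) : ss (t + 1) = ss t + (EE (bb (· + ss t)) t)^[t] (2 ^ ss t + 1) + 1 := rfl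

theorem ss_strictMono : StrictMono ss := strictMono_nat_of_lt_succ fun t => by
  rw [ss_succ]; omega

theorem le_ss (t : ℕ) : t ≤ ss t := ss_strictMono.le_apply

/-- The functions: `ff m` grows faster than `ff (m + 1)`. -/
def ff (m n : ℕ) : ℕ :=
  n + ((Finset.range (n + 1)).filter fun t => ss t ≤ n ∧ m ≤ (Nat.unpair t).1).sup
    fun t => ss (t + 1)

theorem ff_strictMono (m : ℕ) : StrictMono (ff m) := by
  refine strictMono_nat_of_lt_succ fun n => ?_
  unfold ff
  have : ((Finset.range (n + 1)).filter fun t => ss t ≤ n ∧ m ≤ (Nat.unpair t).1).sup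
      (fun t => ss (t + 1)) ≤
      ((Finset.range (n + 1 + 1)).filter fun t => ss t ≤ n + 1 ∧ m ≤ (Nat.unpair t).1).sup
      (fun t => ss (t + 1)) := by
    apply Finset.sup_mono
    intro t ht
    simp only [Finset.mem_filter, Finset.mem_range] at ht ⊢
    exact ⟨by omega, by omega, ht.2.2⟩
  omega

theorem ff_anti {m m' : ℕ} (h : m ≤ m') (n : ℕ) : ff m' n ≤ ff m n := by
  unfold ff
  apply Nat.add_le_add_left
  apply Finset.sup_mono
  intro t ht
  simp only [Finset.mem_filter, Finset.mem_range] at ht ⊢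
  exact ⟨ht.1, ht.2.1, h.trans ht.2.2⟩

theorem le_ff (m n : ℕ) : n ≤ ff m n := Nat.le_add_right _ _

theorem ff_small {m t x : ℕ} (ht : (Nat.unpair t).1 = m) (hx : x < ss (t + 1)) :
    ff (m + 1) x ≤ x + ss t := by
  unfold ff
  apply Nat.add_le_add_left
  apply Finset.sup_le
  intro t' ht'
  simp only [Finset.mem_filter, Finset.mem_range] at ht'
  have h1 : t' < t + 1 := ss_strictMono.lt_iff_lt.1 (lt_of_le_of_lt ht'.2.1 hx)
  have h2 : t' ≠ t := by
    rintro rfl
    omega
  exact ss_strictMono.monotone (by omega)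

theorem ff_large {m t : ℕ} (ht : (Nat.unpair t).1 = m) : ss (t + 1) ≤ ff m (ss t) := by
  unfold ff
  refine le_trans ?_ (Nat.le_add_left _ _)
  refine Finset.le_sup (f := fun t => ss (t + 1)) ?_
  simp only [Finset.mem_filter, Finset.mem_range]
  exact ⟨Nat.lt_succ_of_le (le_ss t), le_rfl, ht.ge⟩

theorem EE_lt {b : ℕ → ℕ} {L N j : ℕ} (hN : 1 ≤ N) (hj : j < N * L) : b j < EE b L N := by
  unfold EE
  have h1 : b j ≤ ∑ i ∈ Finset.range (N * L), b i :=
    Finset.single_le_sum (f := b) (fun i _ => Nat.zero_le _) (Finset.mem_range.2 hj)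
  have h2 : (∑ i ∈ Finset.range (N * L), b i) < 2 ^ (∑ i ∈ Finset.range (N * L), b i) :=
    Nat.lt_two_pow_self
  calc b j < 2 ^ (∑ i ∈ Finset.range (N * L), b i) := lt_of_le_of_lt h1 h2
    _ ≤ N * 2 ^ (∑ i ∈ Finset.range (N * L), b i) := Nat.le_mul_of_pos_left _ hN

theorem EE_iter_mono {b : ℕ → ℕ} {L : ℕ} (N : ℕ) : Monotone fun r => (EE b L)^[r] N :=
  monotone_nat_of_le_succ fun r => by
    rw [Function.iterate_succ_apply']
    exact le_EE _ _ _

theorem growth_aux {m t L : ℕ} (ht : (Nat.unpair t).1 = m) (hL : L ≤ t) (r : ℕ) (hr : r ≤ t) :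
    (EE (bb (ff (m + 1))) L)^[r] (2 ^ ss t + 1) ≤
      (EE (bb (· + ss t)) t)^[r] (2 ^ ss t + 1) := by
  induction r with
  | zero => exact le_rfl
  | succ r ih =>
    have ih := ih (by omega)
    rw [Function.iterate_succ_apply', Function.iterate_succ_apply']
    have hC1 : 1 ≤ (EE (bb (· + ss t)) t)^[r] (2 ^ ss t + 1) :=
      le_trans (Nat.le_add_left 1 _) (le_EE_iter _ _ _ _)
    have hC2 : EE (bb (· + ss t)) t ((EE (bb (· + ss t)) t)^[r] (2 ^ ss t + 1)) < ss (t + 1) := by
      have h1 := EE_iter_mono (b := bb (· + ss t)) (L := t) (2 ^ ss t + 1) hr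
      simp only [Function.iterate_succ_apply'] at h1
      rw [ss_succ]
      omega
    generalize (EE (bb (· + ss t)) t)^[r] (2 ^ ss t + 1) = C at *
    generalize (EE (bb (ff (m + 1))) L)^[r] (2 ^ ss t + 1) = A at *
    have hAC : A * L ≤ C * t := Nat.mul_le_mul ih hL
    have hsum : ∑ i ∈ Finset.range (A * L), bb (ff (m + 1)) i ≤
        ∑ i ∈ Finset.range (C * t), bb (· + ss t) i := by
      refine le_trans (Finset.sum_le_sum (g := fun i => bb (· + ss t) i) fun i hi => ?_)
        (Finset.sum_le_sum_of_subset (Finset.range_subset_range.2 hAC))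
      apply Nat.pow_le_pow_right (by norm_num)
      apply Nat.mul_le_mul_left
      apply ff_small ht
      have h1 : i < C * t := lt_of_lt_of_le (Finset.mem_range.1 hi) hAC
      have h2 := EE_lt (b := bb (· + ss t)) hC1 h1
      have h3 : 2 ^ (i * i) ≤ bb (· + ss t) i := by
        show 2 ^ (i * i) ≤ 2 ^ (2 ^ i * (2 ^ (i * i) + ss t))
        have h4 : 2 ^ (i * i) + ss t < 2 ^ (2 ^ (i * i) + ss t) := Nat.lt_two_pow_self
        have h5 : 2 ^ (i * i) + ss t ≤ 2 ^ i * (2 ^ (i * i) + ss t) :=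
          Nat.le_mul_of_pos_left _ (by positivity)
        have h6 : 2 ^ (2 ^ (i * i) + ss t) ≤ 2 ^ (2 ^ i * (2 ^ (i * i) + ss t)) :=
          Nat.pow_le_pow_right (by norm_num) h5
        omega
      omega
    unfold EE
    exact Nat.mul_le_mul ih (Nat.pow_le_pow_right (by norm_num) hsum)

/-- The growth condition of the merging lemma. -/
theorem growth (m L r : ℕ) :
    ∃ᶠ n in atTop, (EE (bb (ff (m + 1))) L)^[r] (2 ^ n + 1) ≤ ff m n := by
  rw [frequently_atTop]
  intro a
  refine ⟨ss (Nat.pair m (a + L + r)), ?_, ?_⟩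
  · exact (le_trans (by omega) (Nat.right_le_pair m (a + L + r))).trans (le_ss _)
  · have ht : (Nat.unpair (Nat.pair m (a + L + r))).1 = m := by rw [Nat.unpair_pair]
    have h1 : a + L + r ≤ Nat.pair m (a + L + r) := Nat.right_le_pair _ _
    generalize Nat.pair m (a + L + r) = t at *
    have h2 := growth_aux (L := L) ht (by omega) r (by omega)
    have h3 : (EE (bb (· + ss t)) t)^[r] (2 ^ ss t + 1) ≤
        (EE (bb (· + ss t)) t)^[t] (2 ^ ss t + 1) := EE_iter_mono _ (by omega)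
    have h4 := ff_large ht
    rw [ss_succ] at h4
    omega

end Pool.Agent.TH777.Y
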