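import Pool.Agent.W264.Yor.Card
import Pool.Agent.TH777.Y.Growth
import Pool.Agent.TH777.Y.Sent

/-!
# What the sentences say about the Yorioka ideals
-/

set_option autoImplicit false

namespace Pool.Agent.TH777.Y

open Filter Set Cardinal
open Pool.Agent.H31R3.Yor Pool.Agent.W264.Yor

theorem Slalom.finset {h : ℕ → ℕ} {S : ℕ → ℕ → Prop} (hS : Slalom h S) (n : ℕ) :
    ∃ T : Finset ℕ, T.card ≤ h n ∧ ∀ v, S n v → v ∈ T := by
  have hfin : {v | S n v}.Finite := by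
    by_contra hcon
    obtain ⟨t, ht, htc⟩ := Set.Infinite.exists_subset_card_eq (s := {v | S n v}) hcon (h n + 1)
    obtain ⟨v, hv, hv'⟩ := hS n t (by omega)
    exact hv' (ht hv)
  refine ⟨hfin.toFinset, ?_, fun v hv => hfin.mem_toFinset.2 hv⟩
  by_contra hcon
  push Not at hcon
  obtain ⟨v, hv, hv'⟩ := hS n _ hcon
  exact hv' (hfin.mem_toFinset.1 hv)

theorem slalom_of_finset (h : ℕ → ℕ) (T : ℕ → Finset ℕ) :
    Slalom h fun n v => (T n).card ≤ h n ∧ v ∈ T n := by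
  intro n t ht
  by_cases hc : (T n).card ≤ h n
  · obtain ⟨v, hv, hv'⟩ := Finset.exists_mem_notMem_of_card_lt_card (hc.trans_lt ht)
    exact ⟨v, hv, fun h' => hv' h'.2⟩
  · obtain ⟨v, hv⟩ := Finset.card_pos.1 (lt_of_le_of_lt (Nat.zero_le _) ht)
    exact ⟨v, hv, fun h' => hc h'.1⟩

theorem lt_reach {g : ℕ → ℕ} (hg : StrictMono g) (n : ℕ) :
    g n < 2 ^ (fun m => g (2 ^ m))^[1] (n ^ 4) := by
  have h1 : g n < 2 ^ g n := Nat.lt_two_pow_self
  have h2 : n ≤ 2 ^ (n ^ 4) :=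
    le_trans (Nat.le_self_pow (by norm_num) n) Nat.lt_two_pow_self.le
  have h3 : g n ≤ g (2 ^ (n ^ 4)) := hg.monotone h2
  exact lt_of_lt_of_le h1 (Nat.pow_le_pow_right (by norm_num) h3)

theorem notCap_add {K : Type} {g : ℕ → ℕ} (hg : StrictMono g) (h : NotCap K Unit g) :
    add (I g) ≤ #K := by
  by_contra hcon
  push Not at hcon
  obtain ⟨y, hy, hS⟩ := h
  obtain ⟨S, hS1, hS2⟩ := (reach_iterate hg (calc_add hg hcon) 1).1 y (fun l =>
    Eventually.of_forall fun n => lt_of_le_of_lt (hy l n) (lt_reach hg n))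
  obtain ⟨l, hl⟩ := hS (fun _ n v => (S n).card ≤ 2 ^ n ∧ v ∈ S n)
    fun _ => slalom_of_finset (fun n => 2 ^ n) S
  obtain ⟨N, hN⟩ := eventually_atTop.1 (hS1.and (hS2 l))
  obtain ⟨n, hn, hn'⟩ := hl () N
  exact hn' (hN n hn)

theorem notCap_cof {L Ω : Type} {g : ℕ → ℕ} (hg : StrictMono g) (h : NotCap L Ω g) :
    #Ω < cof (I g) := by
  classical
  by_contra hcon
  push Not at hcon
  obtain ⟨y, hy, hS⟩ := h
  obtain ⟨Y, S, hY, hS1, hS2⟩ := (reach_iterate hg (calc_cof hg) 1).1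
  obtain ⟨e⟩ := hY.trans hcon
  obtain ⟨l, hl⟩ := hS (fun ω n v => ∃ z : Y, e z = ω ∧ (S z n).card ≤ 2 ^ n ∧ v ∈ S z n) (by
    intro ω
    by_cases hω : ∃ z : Y, e z = ω
    · obtain ⟨z, rfl⟩ := hω
      intro n t ht
      obtain ⟨v, hv, hv'⟩ := slalom_of_finset (fun n => 2 ^ n) (S z) n t ht
      refine ⟨v, hv, ?_⟩
      rintro ⟨z', hz', h'⟩
      rw [e.injective hz'] at h'
      exact hv' h'
    · intro n t ht
      obtain ⟨v, hv⟩ := Finset.card_pos.1 (lt_of_le_of_lt (Nat.zero_le _) ht)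
      refine ⟨v, hv, ?_⟩
      rintro ⟨z', hz', h'⟩
      exact hω ⟨z', hz'⟩)
  obtain ⟨z, hz⟩ := hS2 (y l) (Eventually.of_forall fun n =>
    lt_of_le_of_lt (hy l n) (lt_reach hg n))
  obtain ⟨N, hN⟩ := eventually_atTop.1 ((hS1 z).and hz)
  obtain ⟨n, hn, hn'⟩ := hl (e z) N
  exact hn' ⟨z, rfl, hN n hn⟩

theorem bb_pos (f : ℕ → ℕ) (n : ℕ) : 0 < bb f n := by
  unfold bb
  positivity

theorem cap_add {K : Type} {f : ℕ → ℕ} (hf : StrictMono f) (h1 : Cap K (bb f)) (h2 : Dom K) :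
    #K < add (I f) := by
  classical
  by_contra hcon
  push Not at hcon
  obtain ⟨F, hF, hFU, hFc⟩ := add_I_spec hf
  rw [← hFc] at hcon
  obtain ⟨e⟩ := hcon
  have hdata : ∀ A : F, ∃ (σ : ℕ → List Bool) (x : ℕ → ℕ), (A : Set (ℕ → Bool)) ⊆ Linf σ ∧
      ∀ n, ∀ i ≥ 2 ^ x n, f (i ^ n) ≤ (σ i).length := by
    intro A
    obtain ⟨σ, hσ, hAσ⟩ := hF A.2
    obtain ⟨x, hx⟩ := exists_rate hσ
    exact ⟨σ, x, hAσ, hx⟩
  choose σ x hσ hx using hdata
  obtain ⟨ψ, hψ⟩ := h2 (Function.extend e x fun _ _ => 0)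
  obtain ⟨cod, D, hcod, hD, hdec⟩ := decode hf ψ
  obtain ⟨S, hS1, hS2⟩ := h1 (Function.extend e (fun A => cod (σ A)) fun _ _ => 0) (by
    intro k n
    by_cases hk : ∃ A, e A = k
    · obtain ⟨A, rfl⟩ := hk
      rw [e.injective.extend_apply]
      exact hcod _ _
    · rw [Function.extend_apply' _ _ _ hk]
      exact bb_pos f n)
  choose T hT1 hT2 using hS1.finset
  apply hFU
  refine I_mono (hD T) (sUnion_subset fun A hA => ?_)
  refine (hσ ⟨A, hA⟩).trans (hdec (σ ⟨A, hA⟩) T ?_ ?_ ?_)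
  · obtain ⟨N, hN⟩ := hψ (e ⟨A, hA⟩)
    refine rate_mono (hx ⟨A, hA⟩) (eventually_atTop.2 ⟨N, fun n hn => ?_⟩)
    have := hN n hn
    rwa [e.injective.extend_apply] at this
  · exact Eventually.of_forall fun n => (hT1 n).trans Nat.lt_two_pow_self.le
  · obtain ⟨N, hN⟩ := hS2 (e ⟨A, hA⟩)
    refine eventually_atTop.2 ⟨N, fun n hn => ?_⟩
    have := hN n hn
    rw [e.injective.extend_apply] at this
    exact hT2 n _ this

theorem capAll_cof {Ω : Type} {f : ℕ → ℕ} (hf : StrictMono f) (h1 : CapAll Ω (bb f))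
    (h2 : DomAll Ω) (hΩ : ℵ₀ ≤ #Ω) : cof (I f) ≤ #Ω := by
  classical
  obtain ⟨S, hS1, hS2⟩ := h1
  obtain ⟨g, hg⟩ := h2
  choose cod D hcod hD hdec using fun ψ : ℕ → ℕ => decode hf ψ
  choose T hT1 hT2 using fun β => (hS1 β).finset
  let G : Ω × Ω → Set K := fun q => D (g q.1) (T q.2)
  have h3 : cof (I f) ≤ #(range G) := by
    refine csInf_le' ⟨range G, ?_, ?_, rfl⟩
    · rintro _ ⟨q, rfl⟩
      exact hD _ _
    · intro A hA
      obtain ⟨σ, hσ, hAσ⟩ := hA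
      obtain ⟨x, hx⟩ := exists_rate hσ
      obtain ⟨β, N, hN⟩ := hg x
      obtain ⟨γ, N', hN'⟩ := hS2 (cod (g β) σ) (fun n => hcod _ _ _)
      refine ⟨_, ⟨⟨β, γ⟩, rfl⟩, hAσ.trans (hdec (g β) σ (T γ) ?_ ?_ ?_)⟩
      · exact rate_mono hx (eventually_atTop.2 ⟨N, hN⟩)
      · exact Eventually.of_forall fun n => (hT1 γ n).trans Nat.lt_two_pow_self.le
      · exact eventually_atTop.2 ⟨N', fun n hn => hT2 γ n _ (hN' n hn)⟩
  refine h3.trans (mk_range_le.trans ?_)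
  rw [mk_prod, lift_id, mul_eq_self hΩ]

end Pool.Agent.TH777.Y
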