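import Mathlib

/-!
# Finite support iterations of localization, domination and Cohen forcing: conditions and order

The construction follows `Pool.Agent.W684.CF.Basic`. A coordinate is either unrestricted, or it
carries a bound `b`: then the stem at this coordinate is an initial segment of a slalom of width
`n` for functions below `b`.
-/

set_option autoImplicit false
set_option linter.unusedSectionVars false

namespace Pool.Agent.TH777.Y

open Classical

/-- the part of a condition at one coordinate: a finite sequence of finite sets, and finitely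
many promises -/
structure CV (M : Type) : Type where
  stem : List (Finset ℕ)
  pr : Finset M

variable {M I W : Type}

/-- the trivial part -/
def CV.top : CV M := ⟨[], ∅⟩

@[simp] theorem CV.top_stem : (CV.top : CV M).stem = [] := rfl
@[simp] theorem CV.top_pr : (CV.top : CV M).pr = ∅ := rfl

/-- the number of promises and the size of the finite sets is bounded, and the elements of the
finite sets are bounded by `b` -/
def Legit (b : ℕ → ℕ) (v : CV M) : Prop :=
  v.pr.card ≤ v.stem.length ∧ ∀ i < v.stem.length, (v.stem.getD i ∅).card ≤ i ∧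
    ∀ a ∈ v.stem.getD i ∅, a < b i

theorem legit_top (b : ℕ → ℕ) : Legit b (CV.top : CV M) := by
  constructor
  · simp
  · intro i hi
    simp at hi

/-- conditions; `bd i = some b` says that the coordinate `i` is restricted, with bound `b` -/
def Cond (M : Type) {I : Type} (bd : I → Option (ℕ → ℕ)) : Type :=
  {f : I → CV M // {i | f i ≠ CV.top}.Finite ∧ ∀ i b, bd i = some b → Legit b (f i)}

variable {bd : I → Option (ℕ → ℕ)}

instance : CoeFun (Cond M bd) fun _ => I → CV M := ⟨Subtype.val⟩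

theorem Cond.ext' {p q : Cond M bd} (h : ∀ i, p i = q i) : p = q := Subtype.ext (funext h)

/-- the support -/
noncomputable def Cond.supp (p : Cond M bd) : Finset I := p.2.1.toFinset

theorem Cond.mem_supp {p : Cond M bd} {i : I} : i ∈ p.supp ↔ p i ≠ CV.top :=
  p.2.1.mem_toFinset

theorem Cond.legit (p : Cond M bd) {i : I} {b : ℕ → ℕ} (h : bd i = some b) : Legit b (p i) :=
  p.2.2 i b h

/-- the trivial condition -/
def Cond.one : Cond M bd := ⟨fun _ => CV.top, by simp, fun _ _ _ => legit_top _⟩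

@[simp] theorem Cond.one_apply (i : I) : (Cond.one : Cond M bd) i = CV.top := rfl

/-- `q` on `T`, and `p` elsewhere -/
noncomputable def mix (T : Set I) (q p : Cond M bd) : Cond M bd :=
  ⟨fun i => if i ∈ T then q i else p i, (q.2.1.union p.2.1).subset (by
    intro i hi
    simp only [Set.mem_ofPred_eq] at hi
    by_cases h : i ∈ T
    · rw [if_pos h] at hi
      exact Or.inl hi
    · rw [if_neg h] at hi
      exact Or.inr hi), fun i b hi => by
    show Legit b (if i ∈ T then q i else p i)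
    by_cases h : i ∈ T
    · rw [if_pos h]
      exact q.2.2 i b hi
    · rw [if_neg h]
      exact p.2.2 i b hi⟩

theorem mix_mem {T : Set I} (q p : Cond M bd) {i : I} (h : i ∈ T) : mix T q p i = q i := if_pos h

theorem mix_notMem {T : Set I} (q p : Cond M bd) {i : I} (h : i ∉ T) : mix T q p i = p i :=
  if_neg h

@[simp] theorem mix_self (T : Set I) (p : Cond M bd) : mix T p p = p :=
  Cond.ext' fun i => by
    by_cases h : i ∈ T
    · rw [mix_mem _ _ h]
    · rw [mix_notMem _ _ h]

/-- change of one coordinate -/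
noncomputable def upd (p : Cond M bd) (j : I) (v : CV M) (hv : ∀ b, bd j = some b → Legit b v) :
    Cond M bd :=
  ⟨fun i => if i = j then v else p i, (p.2.1.union (Set.finite_singleton j)).subset (by
    intro i hi
    by_cases h : i = j
    · exact Or.inr h
    · simp only [Set.mem_ofPred_eq, if_neg h] at hi
      exact Or.inl hi), fun i b hi => by
    show Legit b (if i = j then v else p i)
    by_cases h : i = j
    · subst h
      rw [if_pos rfl]
      exact hv b hi
    · rw [if_neg h]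
      exact p.2.2 i b hi⟩

@[simp] theorem upd_same (p : Cond M bd) (j : I) (v : CV M)
    (hv : ∀ b, bd j = some b → Legit b v) : upd p j v hv j = v := if_pos rfl

theorem upd_of_ne (p : Cond M bd) {i j : I} (v : CV M) (hv : ∀ b, bd j = some b → Legit b v)
    (h : i ≠ j) : upd p j v hv i = p i := if_neg h

/-! ### Names and the order -/

/-- raw names for functions from `ℕ` to `ℕ`: the value at `n` is the second component of the first
pair whose first component is in the generic filter (or `0` if there is none) -/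
abbrev Nm (M : Type) {I : Type} (bd : I → Option (ℕ → ℕ)) : Type :=
  ℕ → ℕ → Option (Cond M bd × ℕ)

/-- two conditions are compatible -/
def Cmp (R : Cond M bd → Cond M bd → Prop) (t u : Cond M bd) : Prop := ∃ r, R r t ∧ R r u

/-- the condition `t` decides that the value at `n` is `v` -/
def Val (R : Cond M bd → Cond M bd → Prop) (t : Cond M bd) (x : Nm M bd) (n v : ℕ) : Prop :=
  (∃ m u, x n m = some (u, v) ∧ R t u ∧ ∀ m' < m, ∀ u' v', x n m' = some (u', v') → ¬ Cmp R t u') ∨
    (v = 0 ∧ ∀ m u v', x n m = some (u, v') → ¬ Cmp R t u)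

/-- the requirement at one coordinate (with bound `B`) -/
def Req (R : Cond M bd → Cond M bd → Prop) (B : Option (ℕ → ℕ)) (ρ : M → Option (Nm M bd))
    (q : Cond M bd) (v w : CV M) : Prop :=
  w.stem <+: v.stem ∧ w.pr ⊆ v.pr ∧ ∀ k ∈ w.pr, ∀ x, ρ k = some x →
    ∀ i, w.stem.length ≤ i → i < v.stem.length → ∀ t, R t q → ∀ n, Val R t x i n →
      (∀ b, B = some b → n < b i) → n ∈ v.stem.getD i ∅

/-- the parameters of the iteration -/
structure Par (M W : Type) {I : Type} (bd : I → Option (ℕ → ℕ)) where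
  rk : I → W
  req : I → M → Option (Nm M bd)

variable [LinearOrder W] [WellFoundedLT W]

theorem rk_wf (Γ : Par M W bd) : WellFounded fun i j : I => Γ.rk i < Γ.rk j :=
  InvImage.wf Γ.rk wellFounded_lt

/-- the relation at the coordinate `j` -/
noncomputable def ext (Γ : Par M W bd) : I → Cond M bd → Cond M bd → Prop :=
  (rk_wf Γ).fix fun j rec q p =>
    Req (fun q p => ∀ i, ∀ h : Γ.rk i < Γ.rk j, rec i h q p) (bd j) (Γ.req j) q (q j) (p j)

/-- the coordinates of smaller rank -/
def below (Γ : Par M W bd) (ξ : W) : Set I := {i | Γ.rk i < ξ}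

/-- `q` is stronger than `p` on the coordinates in `T` -/
def le (Γ : Par M W bd) (T : Set I) (q p : Cond M bd) : Prop := ∀ j ∈ T, ext Γ j q p

/-- lower sets -/
def Low (Γ : Par M W bd) (T : Set I) : Prop := ∀ j ∈ T, ∀ i, Γ.rk i < Γ.rk j → i ∈ T

variable {Γ : Par M W bd}

theorem low_below (ξ : W) : Low Γ (below Γ ξ) := fun _ hj _ hi => lt_trans hi hj

theorem low_univ : Low Γ Set.univ := fun _ _ _ _ => Set.mem_univ _

theorem ext_iff {j : I} {q p : Cond M bd} :
    ext Γ j q p ↔ Req (le Γ (below Γ (Γ.rk j))) (bd j) (Γ.req j) q (q j) (p j) := by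
  conv_lhs => rw [ext, WellFounded.fix_eq]
  rfl

theorem le_mono {S T : Set I} (h : S ⊆ T) {q p : Cond M bd} (hqp : le Γ T q p) : le Γ S q p :=
  fun j hj => hqp j (h hj)

theorem getD_prefix {s s' : List (Finset ℕ)} (h : s <+: s') {i : ℕ} (hi : i < s.length) :
    s'.getD i ∅ = s.getD i ∅ := by
  obtain ⟨r, rfl⟩ := h
  exact List.getD_append _ _ _ _ hi

theorem ext_refl_trans (j : I) :
    (∀ p : Cond M bd, ext Γ j p p) ∧
    ∀ r q p : Cond M bd, le Γ (below Γ (Γ.rk j)) r q → ext Γ j r q → ext Γ j q p →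
      ext Γ j r p := by
  induction j using (rk_wf Γ).induction with
  | _ j ih =>
    refine ⟨fun p => ?_, fun r q p hrq h1 h2 => ?_⟩
    · rw [ext_iff]
      refine ⟨List.prefix_refl _, Finset.Subset.refl _, fun k _ x _ i hi hi' => ?_⟩
      omega
    · have htrans : ∀ r q p : Cond M bd, le Γ (below Γ (Γ.rk j)) r q →
          le Γ (below Γ (Γ.rk j)) q p → le Γ (below Γ (Γ.rk j)) r p := by
        intro r q p hrq hqp i hi
        exact (ih i hi).2 r q p (fun l hl => hrq l (lt_trans hl hi)) (hrq i hi) (hqp i hi)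
      rw [ext_iff] at h1 h2 ⊢
      refine ⟨h2.1.trans h1.1, fun _ hk => h1.2.1 (h2.2.1 hk), ?_⟩
      intro k hk x hx i hi hi' t ht n hn ha
      by_cases h : i < (q j).stem.length
      · rw [getD_prefix h1.1 h]
        exact h2.2.2 k hk x hx i hi h t (htrans t r q ht hrq) n hn ha
      · exact h1.2.2 k (h2.2.1 hk) x hx i (not_lt.1 h) hi' t ht n hn ha

theorem ext_refl (j : I) (p : Cond M bd) : ext Γ j p p := (ext_refl_trans j).1 p

theorem le_refl' (T : Set I) (p : Cond M bd) : le Γ T p p := fun j _ => ext_refl j p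

theorem le_trans' {T : Set I} (hT : Low Γ T) {r q p : Cond M bd} (h1 : le Γ T r q)
    (h2 : le Γ T q p) : le Γ T r p := fun j hj =>
  (ext_refl_trans j).2 r q p (fun i hi => h1 i (hT j hj i hi)) (h1 j hj) (h2 j hj)

/-- the relation at `j` only depends on the coordinates up to `j` -/
theorem ext_congr (j : I) : ∀ {q q' p p' : Cond M bd},
    (∀ i, Γ.rk i < Γ.rk j → q i = q' i) → q j = q' j → p j = p' j →
    ext Γ j q p → ext Γ j q' p' := by
  induction j using (rk_wf Γ).induction with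
  | _ j ih =>
    intro q q' p p' hq hqj hp h
    rw [ext_iff] at h ⊢
    rw [← hqj, ← hp]
    refine ⟨h.1, h.2.1, fun k hk x hx i hi hi' t ht n hn ha => ?_⟩
    refine h.2.2 k hk x hx i hi hi' t (fun l hl => ?_) n hn ha
    exact ih l hl (fun _ _ => rfl) rfl (hq l hl).symm (ht l hl)

theorem le_congr {T : Set I} (hT : Low Γ T) {q q' p p' : Cond M bd}
    (hq : ∀ i ∈ T, q i = q' i) (hp : ∀ i ∈ T, p i = p' i) (h : le Γ T q p) : le Γ T q' p' :=
  fun j hj => ext_congr j (fun i hi => hq i (hT j hj i hi)) (hq j hj) (hp j hj) (h j hj)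

theorem le_of_eq {T : Set I} (hT : Low Γ T) {q p : Cond M bd} (h : ∀ i ∈ T, q i = p i) :
    le Γ T q p := le_congr hT (fun _ _ => rfl) h (le_refl' T q)

theorem ext_same_stem {j : I} {q p : Cond M bd} (h1 : (p j).stem = (q j).stem)
    (h2 : (p j).pr ⊆ (q j).pr) : ext Γ j q p := by
  rw [ext_iff]
  refine ⟨h1 ▸ List.prefix_refl _, h2, fun k _ x _ i hi hi' => ?_⟩
  rw [h1] at hi
  omega

theorem ext_of_eq {j : I} {q p : Cond M bd} (h : q j = p j) : ext Γ j q p :=
  ext_same_stem (by rw [h]) (by rw [h])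

theorem ext_top {j : I} {q p : Cond M bd} (h : p j = CV.top) : ext Γ j q p := by
  rw [ext_iff, h]
  refine ⟨List.nil_prefix, Finset.empty_subset _, fun k hk => ?_⟩
  simp at hk

/-- coordinates without requirements -/
theorem ext_noreq {j : I} {q p : Cond M bd} (h : ∀ k, Γ.req j k = none)
    (h1 : (p j).stem <+: (q j).stem) (h2 : (p j).pr ⊆ (q j).pr) : ext Γ j q p := by
  rw [ext_iff]
  refine ⟨h1, h2, fun k _ x hx => ?_⟩
  rw [h k] at hx
  exact absurd hx (by simp)

theorem ext_stem {j : I} {q p : Cond M bd} (h : ext Γ j q p) : (p j).stem <+: (q j).stem := by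
  rw [ext_iff] at h
  exact h.1

theorem ext_pr {j : I} {q p : Cond M bd} (h : ext Γ j q p) : (p j).pr ⊆ (q j).pr := by
  rw [ext_iff] at h
  exact h.2.1

/-- amalgamation -/
theorem mix_le {S T : Set I} (hS : Low Γ S) {q p : Cond M bd} (h : le Γ S q p) :
    le Γ T (mix S q p) p := by
  intro j _
  by_cases hj : j ∈ S
  · exact ext_congr j (fun i hi => (mix_mem q p (hS j hj i hi)).symm) (mix_mem q p hj).symm rfl
      (h j hj)
  · exact ext_of_eq (mix_notMem q p hj)

theorem mix_eq {S : Set I} (hS : Low Γ S) (q p : Cond M bd) : le Γ S (mix S q p) q :=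
  le_of_eq hS fun _ hi => mix_mem q p hi

/-! ### Decision of values -/

theorem Cmp.mono {T : Set I} (hT : Low Γ T) {t t' u : Cond M bd} (ht : le Γ T t' t)
    (h : Cmp (le Γ T) t' u) : Cmp (le Γ T) t u := by
  obtain ⟨r, h1, h2⟩ := h
  exact ⟨r, le_trans' hT h1 ht, h2⟩

theorem Val.mono {T : Set I} (hT : Low Γ T) {t t' : Cond M bd} {x : Nm M bd} {n v : ℕ}
    (h : Val (le Γ T) t x n v) (ht : le Γ T t' t) : Val (le Γ T) t' x n v := by
  rcases h with ⟨m, u, h1, h2, h3⟩ | ⟨h1, h2⟩
  · exact Or.inl ⟨m, u, h1, le_trans' hT ht h2, fun m' hm' u' v' hu' hc =>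
      h3 m' hm' u' v' hu' (hc.mono hT ht)⟩
  · exact Or.inr ⟨h1, fun m u v' hu hc => h2 m u v' hu (hc.mono hT ht)⟩

theorem Val.unique {T : Set I} {t : Cond M bd} {x : Nm M bd} {n v v' : ℕ}
    (h : Val (le Γ T) t x n v) (h' : Val (le Γ T) t x n v') : v = v' := by
  rcases h with ⟨m, u, h1, h2, h3⟩ | ⟨h1, h2⟩ <;> rcases h' with ⟨m', u', h1', h2', h3'⟩ | ⟨h1', h2'⟩
  · rcases lt_trichotomy m m' with h | rfl | h
    · exact absurd ⟨t, le_refl' T t, h2⟩ (h3' m h u v h1)
    · rw [h1] at h1'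
      have := Option.some_injective _ h1'
      exact (Prod.mk.inj this).2
    · exact absurd ⟨t, le_refl' T t, h2'⟩ (h3 m' h u' v' h1')
  · exact absurd ⟨t, le_refl' T t, h2⟩ (h2' m u v h1)
  · exact absurd ⟨t, le_refl' T t, h2'⟩ (h2 m' u' v' h1')
  · rw [h1, h1']

theorem Val.dense {T : Set I} (hT : Low Γ T) (t : Cond M bd) (x : Nm M bd) (n : ℕ) :
    ∃ t', le Γ T t' t ∧ ∃ v, Val (le Γ T) t' x n v := by
  by_cases h : ∃ m u v, x n m = some (u, v) ∧ Cmp (le Γ T) t u
  · obtain ⟨u, v, hu, r, hr, hr'⟩ := Nat.find_spec h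
    refine ⟨r, hr, v, Or.inl ⟨Nat.find h, u, hu, hr', fun m' hm' u' v' hu' hc => ?_⟩⟩
    exact Nat.find_min h hm' ⟨u', v', hu', hc.mono hT hr⟩
  · exact ⟨t, le_refl' T t, 0, Or.inr ⟨rfl, fun m u v' hu hc => h ⟨m, u, v', hu, hc⟩⟩⟩

/-- finitely many values can be decided -/
theorem Val.decide {T : Set I} (hT : Low Γ T) (F : List (Nm M bd × ℕ)) (t : Cond M bd) :
    ∃ t', le Γ T t' t ∧ ∀ x n, (x, n) ∈ F → ∃ v, Val (le Γ T) t' x n v := by
  induction F with
  | nil => exact ⟨t, le_refl' T t, fun x n h => absurd h List.not_mem_nil⟩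
  | cons a F ih =>
    obtain ⟨t1, h1, h2⟩ := ih
    obtain ⟨t2, h3, v, hv⟩ := Val.dense (Γ := Γ) hT t1 a.1 a.2
    refine ⟨t2, le_trans' hT h3 h1, fun x n h => ?_⟩
    rcases List.mem_cons.1 h with h | h
    · rw [Prod.ext_iff] at h
      obtain ⟨rfl, rfl⟩ := h
      exact ⟨v, hv⟩
    · obtain ⟨w, hw⟩ := h2 x n h
      exact ⟨w, hw.mono hT h3⟩

/-- the conditions used in the name are supported in `T` -/
def Supp (T : Set I) (x : Nm M bd) : Prop :=
  ∀ n m u v, x n m = some (u, v) → ∀ i ∉ T, u i = CV.top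

theorem Supp.mono {S T : Set I} (h : S ⊆ T) {x : Nm M bd} (hx : Supp S x) : Supp T x :=
  fun n m u v hu i hi => hx n m u v hu i fun h' => hi (h h')

theorem Supp.le_iff {S T : Set I} (hST : S ⊆ T) {x : Nm M bd} (hx : Supp S x) {n m v : ℕ}
    {u : Cond M bd} (hu : x n m = some (u, v)) (t : Cond M bd) : le Γ T t u ↔ le Γ S t u := by
  refine ⟨fun h => le_mono hST h, fun h j hj => ?_⟩
  by_cases hjS : j ∈ S
  · exact h j hjS
  · exact ext_top (hx n m u v hu j hjS)

theorem Supp.cmp_iff {S T : Set I} (hS : Low Γ S) (hST : S ⊆ T) {x : Nm M bd} (hx : Supp S x)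
    {n m v : ℕ} {u : Cond M bd} (hu : x n m = some (u, v)) (t : Cond M bd) :
    Cmp (le Γ T) t u ↔ Cmp (le Γ S) t u := by
  constructor
  · rintro ⟨r, h1, h2⟩
    exact ⟨r, le_mono hST h1, le_mono hST h2⟩
  · rintro ⟨r, h1, h2⟩
    refine ⟨mix S r t, mix_le hS h1, (hx.le_iff hST hu _).2 ?_⟩
    exact le_congr hS (fun i hi => (mix_mem r t hi).symm) (fun _ _ => rfl) h2

theorem Val.iff_of_supp {S T : Set I} (hS : Low Γ S) (hST : S ⊆ T) {x : Nm M bd}
    (hx : Supp S x) {t : Cond M bd} {n v : ℕ} :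
    Val (le Γ T) t x n v ↔ Val (le Γ S) t x n v := by
  constructor
  · rintro (⟨m, u, h1, h2, h3⟩ | ⟨h1, h2⟩)
    · exact Or.inl ⟨m, u, h1, (hx.le_iff hST h1 t).1 h2, fun m' hm' u' v' hu' hc =>
        h3 m' hm' u' v' hu' ((hx.cmp_iff hS hST hu' t).2 hc)⟩
    · exact Or.inr ⟨h1, fun m u v' hu hc => h2 m u v' hu ((hx.cmp_iff hS hST hu t).2 hc)⟩
  · rintro (⟨m, u, h1, h2, h3⟩ | ⟨h1, h2⟩)
    · exact Or.inl ⟨m, u, h1, (hx.le_iff hST h1 t).2 h2, fun m' hm' u' v' hu' hc =>
        h3 m' hm' u' v' hu' ((hx.cmp_iff hS hST hu' t).1 hc)⟩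
    · exact Or.inr ⟨h1, fun m u v' hu hc => h2 m u v' hu ((hx.cmp_iff hS hST hu t).1 hc)⟩

end Pool.Agent.TH777.Y
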