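import Mathlib

/-!
# The delta-system lemma for regular uncountable cardinals
-/

set_option autoImplicit false

namespace Pool.Agent.TH777.Y

open Cardinal Set

/-- pigeonhole principle -/
theorem fiber_card {α β : Type} {θ : Cardinal.{0}} (hθ : θ.IsRegular) {A : Set α} (hA : θ ≤ #A)
    (hβ : #β < θ) (g : α → β) : ∃ b, θ ≤ #{a : α | a ∈ A ∧ g a = b} := by
  obtain ⟨b, hb⟩ := infinite_pigeonhole_card (fun a : A => g a) θ hA hθ.aleph0_le
    (by rw [hθ.cof_ord]; exact hβ)
  refine ⟨b, hb.trans ?_⟩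
  refine mk_le_of_injective (f := fun a : ↑((fun a : A => g a) ⁻¹' {b}) =>
    (⟨a.1.1, a.1.2, a.2⟩ : {a : α | a ∈ A ∧ g a = b})) ?_
  rintro ⟨⟨a, h1⟩, h2⟩ ⟨⟨a', h1'⟩, h2'⟩ h
  simp only [Subtype.mk.injEq] at h
  subst h
  rfl

theorem lt_card_diff {α : Type} {θ : Cardinal.{0}} (hθ : θ.IsRegular) {A B : Set α} (hA : θ ≤ #A)
    (hB : #B < θ) : θ ≤ #↥(A \ B) := by
  by_contra hcon
  push Not at hcon
  have h1 : #A ≤ #↥(A \ B) + #B := by
    refine le_trans (mk_le_mk_of_subset (t := (A \ B) ∪ B) ?_) (mk_union_le _ _)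
    intro a ha
    by_cases hb : a ∈ B
    · exact Or.inr hb
    · exact Or.inl ⟨ha, hb⟩
  exact absurd (hA.trans h1) (not_le.2 (add_lt_of_lt hθ.aleph0_le hcon hB))

/-- Delta-system lemma for families of finite sets of bounded size. -/
theorem delta_card {T I : Type} {θ : Cardinal.{0}} (hθ : θ.IsRegular) (F : I → Finset T)
    (n : ℕ) : ∀ (J : Set I), θ ≤ #J → (∀ i ∈ J, (F i).card ≤ n) →
      ∃ (J' : Set I) (R : Finset T), J' ⊆ J ∧ θ ≤ #J' ∧
        (∀ i ∈ J', R ⊆ F i) ∧ ∀ i ∈ J', ∀ j ∈ J', i ≠ j → ∀ t ∈ F i, t ∈ F j → t ∈ R := by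
  classical
  induction n generalizing F with
  | zero =>
    intro J hJ hc
    refine ⟨J, ∅, le_refl _, hJ, by simp, ?_⟩
    intro i hi j _ _ t ht
    have := hc i hi
    simp only [nonpos_iff_eq_zero, Finset.card_eq_zero] at this
    rw [this] at ht
    simp at ht
  | succ n ih =>
    intro J hJ hc
    by_cases hex : ∃ t, θ ≤ #{i : I | i ∈ J ∧ t ∈ F i}
    · obtain ⟨t, ht⟩ := hex
      obtain ⟨J', R, h1, h2, h3, h4⟩ := ih (fun i => (F i).erase t) {i | i ∈ J ∧ t ∈ F i} ht (by
        intro i hi
        have := hc i hi.1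
        rw [Finset.card_erase_of_mem hi.2]
        omega)
      refine ⟨J', insert t R, fun i hi => (h1 hi).1, h2, ?_, ?_⟩
      · intro i hi x hx
        rcases Finset.mem_insert.mp hx with rfl | hx
        · exact (h1 hi).2
        · exact Finset.mem_of_mem_erase (h3 i hi hx)
      · intro i hi j hj hij x hxi hxj
        by_cases hxt : x = t
        · subst hxt; exact Finset.mem_insert_self _ _
        · exact Finset.mem_insert_of_mem (h4 i hi j hj hij x (Finset.mem_erase.mpr ⟨hxt, hxi⟩)
            (Finset.mem_erase.mpr ⟨hxt, hxj⟩))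
    · push Not at hex
      -- maximal disjoint subfamily
      obtain ⟨J', hJ', hmax⟩ : ∃ J' : Set I, Maximal (fun J' : Set I => J' ⊆ J ∧
          ∀ i ∈ J', ∀ j ∈ J', i ≠ j → Disjoint (F i) (F j)) J' := by
        apply zorn_subset
        intro c hc1 hc2
        refine ⟨⋃₀ c, ⟨?_, ?_⟩, ?_⟩
        · exact sUnion_subset fun s hs => (hc1 hs).1
        · rintro i ⟨s, hs, his⟩ j ⟨s', hs', hjs'⟩ hij
          rcases hc2.total hs hs' with h | h
          · exact (hc1 hs').2 i (h his) j hjs' hij
          · exact (hc1 hs).2 i his j (h hjs') hij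
        · intro s hs
          exact subset_sUnion_of_mem hs
      refine ⟨J', ∅, hJ'.1, ?_, by simp, ?_⟩
      · by_contra hcount
        push Not at hcount
        apply absurd hJ
        rw [not_le]
        have hcov : J ⊆ J' ∪ ⋃ j ∈ J', ⋃ t ∈ (F j : Set T), {i : I | i ∈ J ∧ t ∈ F i} := by
          intro i hi
          by_contra hni
          simp only [mem_union, mem_iUnion, not_or, not_exists] at hni
          obtain ⟨hni1, hni2⟩ := hni
          have hins : insert i J' ⊆ J' := by
            apply hmax (y := insert i J')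
            · refine ⟨insert_subset hi hJ'.1, ?_⟩
              have key : ∀ j ∈ J', Disjoint (F i) (F j) := by
                intro j hj
                rw [Finset.disjoint_left]
                intro t ht1 ht2
                exact hni2 j hj t (by simpa using ht2) ⟨hi, ht1⟩
              rintro a (rfl | ha) b (rfl | hb) hab
              · exact absurd rfl hab
              · exact key b hb
              · exact (key a ha).symm
              · exact hJ'.2 a ha b hb hab
            · exact subset_insert _ _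
          exact hni1 (hins (mem_insert _ _))
        refine lt_of_le_of_lt (mk_le_mk_of_subset hcov) ?_
        refine lt_of_le_of_lt (mk_union_le _ _) ?_
        refine add_lt_of_lt hθ.aleph0_le hcount ?_
        rw [card_biUnion_lt_iff_forall_of_isRegular hθ hcount]
        intro j hj
        rw [card_biUnion_lt_iff_forall_of_isRegular hθ]
        · intro t _
          exact hex t
        · refine lt_of_lt_of_le (lt_aleph0_of_finite _) hθ.aleph0_le
      · intro i hi j hj hij t h1 h2
        exact absurd h2 (Finset.disjoint_left.1 (hJ'.2 i hi j hj hij) h1)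

/-- Delta-system lemma. -/
theorem delta_system {T I : Type} {θ : Cardinal.{0}} (hθ : θ.IsRegular) (hθ0 : ℵ₀ < θ)
    (F : I → Finset T) (J : Set I) (hJ : θ ≤ #J) :
    ∃ (J' : Set I) (R : Finset T), J' ⊆ J ∧ θ ≤ #J' ∧
        (∀ i ∈ J', R ⊆ F i) ∧ ∀ i ∈ J', ∀ j ∈ J', i ≠ j → ∀ t ∈ F i, t ∈ F j → t ∈ R := by
  obtain ⟨n, hn⟩ := fiber_card hθ hJ (by rw [mk_nat]; exact hθ0) (fun i => (F i).card)
  obtain ⟨J', R, h1, h2, h3, h4⟩ := delta_card hθ F n _ hn (fun i hi => hi.2.le)
  exact ⟨J', R, fun i hi => (h1 hi).1, h2, h3, h4⟩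

end Pool.Agent.TH777.Y
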