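import Pool.Agent.TH777.Y.Merge
import Pool.Agent.TH777.Y.Delta
import Pool.Agent.Helper669.Forcing

/-!
# The Luzin property of the family of the Cohen reals
-/

set_option autoImplicit false
set_option linter.unusedSectionVars false

namespace Pool.Agent.TH777.Y

open Classical Cardinal Filter Pool.Agent.Helper669.Forcing

variable {M I W : Type} {bd : I → Option (ℕ → ℕ)} [LinearOrder W] [WellFoundedLT W]
  {Γ : Par M W bd}

/-- the conditions, with the order given by the parameters -/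
def PP (_Γ : Par M W bd) : Type := Cond M bd

/-- an element of `PP Γ` as a condition -/
abbrev PP.toC (r : PP Γ) : Cond M bd := r

noncomputable instance : Preorder (PP Γ) where
  le q p := le Γ Set.univ q p
  le_refl p := le_refl' Set.univ p
  le_trans _ _ _ h1 h2 := le_trans' low_univ h1 h2

theorem PP.le_def {q p : PP Γ} : q ≤ p ↔ le Γ Set.univ q p := Iff.rfl

/-- good parameters: the names used at a coordinate are names for reals added at smaller ranks,
and the coordinates of the lowest rank are Cohen coordinates -/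
structure Good [OrderBot W] (Γ : Par M W bd) : Prop where
  supp : ∀ j k x, Γ.req j k = some x → Supp (below Γ (Γ.rk j)) x
  bot : ∀ j, Γ.rk j = ⊥ → bd j = none ∧ ∀ k, Γ.req j k = none

/-- The Luzin property: from `θ` many conditions `p a` and Cohen coordinates `l a` one gets many
conditions with a common extension which decides different values below `B n` at some `n` for the
corresponding Cohen reals. -/
def Luz [OrderBot W] (Γ : Par M W bd) (θ : Cardinal.{0}) (B h : ℕ → ℕ) : Prop :=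
  ∀ (α : Type) (A : Set α), θ ≤ #A → ∀ (p : α → Cond M bd) (l : α → I),
    (∀ a ∈ A, Γ.rk (l a) = ⊥) → Set.InjOn l A → ∀ m : ℕ,
      ∃ n, m ≤ n ∧ ∃ (q : Cond M bd) (Z : Finset α), (↑Z : Set α) ⊆ A ∧ h n < Z.card ∧
        (∀ a ∈ Z, le Γ Set.univ q (p a)) ∧ (∀ a ∈ Z, n < (q (l a)).stem.length) ∧
        (∀ a ∈ Z, ((q (l a)).stem.getD n ∅).card < B n) ∧
        ∀ a ∈ Z, ∀ b ∈ Z, a ≠ b →
          ((q (l a)).stem.getD n ∅).card ≠ ((q (l b)).stem.getD n ∅).card

theorem mk_finset_lt {X : Type} {θ : Cardinal.{0}} (hθ : ℵ₀ < θ) (hX : #X < θ) :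
    #(Finset X) < θ := by
  rcases finite_or_infinite X with h | h
  · exact (lt_aleph0_of_finite _).trans hθ
  · rw [mk_finset_of_infinite]
    exact hX

theorem luz [OrderBot W] (hG : Good Γ) {θ : Cardinal.{0}} (hθ : θ.IsRegular) (hθ0 : ℵ₀ < θ)
    (b0 B h : ℕ → ℕ)
    (hslow : ∀ j b, bd j = some b → (∀ i, b i ≤ b0 i) ∨ #{k : M | Γ.req j k ≠ none} < θ)
    (hgrow : ∀ L r : ℕ, ∃ᶠ n in atTop, (EE b0 L)^[r] (h n + 1) ≤ B n) : Luz Γ θ B h := by
  intro α A hA p l hl hinj m
  obtain ⟨A1, R, hA1A, hA1, -, hd⟩ := delta_system hθ hθ0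
    (fun a => insert (l a) (p a).supp) A hA
  have hfinR : {a | a ∈ A1 ∧ l a ∈ R}.Finite := by
    refine Set.Finite.of_finite_image (f := l) ?_ ?_
    · refine (Finset.finite_toSet R).subset ?_
      rintro _ ⟨a, ha, rfl⟩
      exact ha.2
    · exact hinj.mono fun a ha => hA1A ha.1
  have hA2 : θ ≤ #↥(A1 \ {a | a ∈ A1 ∧ l a ∈ R}) :=
    lt_card_diff hθ hA1 (lt_of_lt_of_le (lt_aleph0_iff_set_finite.2 hfinR) hθ.aleph0_le)
  obtain ⟨⟨st, N0⟩, hA3⟩ := fiber_card (β := (R → List (Finset ℕ)) × ℕ) hθ hA2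
    (lt_of_le_of_lt mk_le_aleph0 hθ0)
    (fun a => ((fun r : R => (p a r.1).stem), (p a (l a)).stem.length))
  -- the promises at the coordinates with few requirements
  let Y : Set (I × M) := {z | z.1 ∈ R ∧ #{k : M | Γ.req z.1 k ≠ none} < θ ∧ Γ.req z.1 z.2 ≠ none}
  have hY : #Y < θ := by
    have h1 : Y ⊆ ⋃ j ∈ (↑(R.filter fun j => #{k : M | Γ.req j k ≠ none} < θ) : Set I),
        (fun k => (j, k)) '' {k : M | Γ.req j k ≠ none} := by
      rintro ⟨j, k⟩ ⟨h1, h2, h3⟩
      simp only [Set.mem_iUnion]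
      exact ⟨j, Finset.mem_coe.2 (Finset.mem_filter.2 ⟨h1, h2⟩), k, h3, rfl⟩
    refine lt_of_le_of_lt (mk_le_mk_of_subset h1) ?_
    rw [card_biUnion_lt_iff_forall_of_isRegular hθ]
    · intro j hj
      exact lt_of_le_of_lt mk_image_le (Finset.mem_filter.1 (Finset.mem_coe.1 hj)).2
    · exact lt_of_lt_of_le (lt_aleph0_of_finite _) hθ.aleph0_le
  let D : α → Finset (I × M) := fun a => R.biUnion fun j => (p a j).pr.image fun k => (j, k)
  have hD : ∀ a j k, (j, k) ∈ D a ↔ j ∈ R ∧ k ∈ (p a j).pr := by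
    intro a j k
    simp only [D, Finset.mem_biUnion, Finset.mem_image, Prod.mk.injEq]
    constructor
    · rintro ⟨j', hj', k', hk', rfl, rfl⟩
      exact ⟨hj', hk'⟩
    · rintro ⟨hj, hk⟩
      exact ⟨j, hj, k, hk, rfl, rfl⟩
  obtain ⟨pr0, hA4⟩ := fiber_card (β := Finset Y) hθ hA3 (mk_finset_lt hθ0 hY)
    (fun a => Finset.subtype (fun z => z ∈ Y) (D a))
  obtain ⟨A4, hA4def⟩ : ∃ A4 : Set α, A4 = {a | a ∈ {a | a ∈ A1 \ {a | a ∈ A1 ∧ l a ∈ R} ∧
      ((fun r : R => (p a r.1).stem), (p a (l a)).stem.length) = (st, N0)} ∧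
      Finset.subtype (fun z => z ∈ Y) (D a) = pr0} := ⟨_, rfl⟩
  rw [← hA4def] at hA4
  have hA4' : ∀ a ∈ A4, a ∈ A1 ∧ l a ∉ R ∧ (∀ r ∈ R, ∀ b ∈ A4, (p a r).stem = (p b r).stem) ∧
      (p a (l a)).stem.length = N0 ∧
      ∀ b ∈ A4, ∀ z ∈ Y, z.2 ∈ (p a z.1).pr → z.2 ∈ (p b z.1).pr := by
    intro a ha
    rw [hA4def] at ha
    obtain ⟨⟨⟨h1, h2⟩, h3⟩, h6⟩ := ha
    have h4 := (Prod.mk.inj h3).1
    refine ⟨h1, fun h => h2 ⟨h1, h⟩, fun r hr b hb => ?_, (Prod.mk.inj h3).2, fun b hb z hz hz' => ?_⟩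
    · rw [hA4def] at hb
      obtain ⟨⟨_, h3'⟩, _⟩ := hb
      have h5 := (Prod.mk.inj h3').1
      exact (congrFun h4 ⟨r, hr⟩).trans (congrFun h5 ⟨r, hr⟩).symm
    · rw [hA4def] at hb
      have h7 : Finset.subtype (fun z => z ∈ Y) (D a) = Finset.subtype (fun z => z ∈ Y) (D b) :=
        h6.trans hb.2.symm
      have h8 : (⟨z, hz⟩ : Y) ∈ Finset.subtype (fun z => z ∈ Y) (D a) := by
        rw [Finset.mem_subtype]
        exact (hD a z.1 z.2).2 ⟨hz.1, hz'⟩
      rw [h7, Finset.mem_subtype] at h8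
      exact ((hD b z.1 z.2).1 h8).2
  have hinf : A4.Infinite := by
    rw [Set.infinite_coe_iff.symm, infinite_iff]
    exact hθ.aleph0_le.trans hA4
  obtain ⟨a1, ha1⟩ := hinf.nonempty
  obtain ⟨L, hL⟩ : ∃ L, ∀ j ∈ R, (p a1 j).stem.length ≤ L :=
    ⟨R.sup fun j => (p a1 j).stem.length, fun j hj =>
      Finset.le_sup (f := fun j => (p a1 j).stem.length) hj⟩
  obtain ⟨n, hn, hgr⟩ := frequently_atTop.1 (hgrow L R.card) (max m N0)
  have hnm : m ≤ n := (le_max_left _ _).trans hn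
  have hnN : N0 ≤ n := (le_max_right _ _).trans hn
  obtain ⟨Z, hZA, hZc⟩ := hinf.exists_subset_card_eq ((EE b0 L)^[R.card] (h n + 1))
  obtain ⟨num, hnum1, hnum2⟩ : ∃ num : α → ℕ, (∀ a ∈ Z, num a < Z.card) ∧
      ∀ a ∈ Z, ∀ b ∈ Z, num a = num b → a = b := by
    refine ⟨fun a => if h : a ∈ Z then (Z.equivFin ⟨a, h⟩).val else 0, fun a ha => ?_,
      fun a ha b hb hab => ?_⟩
    · simp only [dif_pos ha]
      exact (Z.equivFin ⟨a, ha⟩).isLt
    · simp only [dif_pos ha, dif_pos hb] at hab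
      have := Z.equivFin.injective (Fin.ext hab)
      exact congrArg Subtype.val this
  have hbot : ∀ a ∈ Z, Γ.rk (l a) = ⊥ := fun a ha => hl a (hA1A (hA4' a (hZA ha)).1)
  let v : α → CV M := fun a =>
    ⟨((p a (l a)).stem ++ List.replicate (n - N0) ∅) ++ [Finset.range (num a)], (p a (l a)).pr⟩
  have hex : ∀ a, ∃ p' : Cond M bd, a ∈ Z → (p' (l a) = v a ∧ ∀ i, i ≠ l a → p' i = p a i) := by
    intro a
    by_cases ha : a ∈ Z
    · have hn : ∀ b, bd (l a) = some b → Legit b (v a) := fun b hb => by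
        rw [(hG.bot _ (hbot a ha)).1] at hb
        exact absurd hb (by simp)
      exact ⟨upd (p a) (l a) (v a) hn, fun _ => ⟨upd_same _ _ _ _, fun i hi => upd_of_ne _ _ _ hi⟩⟩
    · exact ⟨p a, fun h => absurd h ha⟩
  choose p' hp' using hex
  have hle : ∀ a ∈ Z, le Γ Set.univ (p' a) (p a) := by
    intro a ha i _
    obtain ⟨h1, h2⟩ := hp' a ha
    by_cases hil : i = l a
    · subst hil
      refine ext_noreq (hG.bot _ (hbot a ha)).2 ?_ ?_
      · rw [h1]
        exact (List.prefix_append _ _).trans (List.prefix_append _ _)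
      · rw [h1]
    · exact ext_of_eq (h2 i hil)
  have hpR : ∀ j ∈ R, ∀ a ∈ Z, p' a j = p a j := by
    intro j hj a ha
    exact (hp' a ha).2 j fun h => (hA4' a (hZA ha)).2.1 (h ▸ hj)
  obtain ⟨Z', hZ', hc', q, hq⟩ := merge (Γ := Γ) b0 L p' R.card (h n + 1) (by omega) R rfl
    Set.univ low_univ Z hZc.ge
    (by
      intro i _ hiR a ha b hb hab
      by_contra hcon
      push Not at hcon
      have key : ∀ a ∈ Z, p' a i ≠ CV.top → i ∈ insert (l a) (p a).supp := by
        intro a ha hne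
        by_cases hil : i = l a
        · rw [hil]
          exact Finset.mem_insert_self _ _
        · rw [(hp' a ha).2 i hil] at hne
          exact Finset.mem_insert_of_mem (Cond.mem_supp.2 hne)
      exact hiR (hd a (hA4' a (hZA ha)).1 b (hA4' b (hZA hb)).1 hab i (key a ha hcon.1)
        (key b hb hcon.2)))
    (by
      intro j hj a ha b hb
      rw [hpR j hj a ha, hpR j hj b hb]
      exact (hA4' a (hZA ha)).2.2.1 j hj b (hZA hb))
    (by
      intro j hj a ha
      rw [hpR j hj a ha, (hA4' a (hZA ha)).2.2.1 j hj a1 ha1]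
      exact hL j hj)
    (by
      intro j hj b hb
      refine (hslow j b hb).imp id fun hsm a ha a' ha' k hk hka => ?_
      rw [hpR j hj a ha] at hka
      rw [hpR j hj a' ha']
      exact (hA4' a (hZA ha)).2.2.2.2 a' (hZA ha') (j, k) ⟨hj, hsm, hk⟩ hka)
  have hstem : ∀ a ∈ Z', n < (q (l a)).stem.length ∧
      (q (l a)).stem.getD n ∅ = Finset.range (num a) := by
    intro a ha
    have haZ := hZ' ha
    have h1 := ext_stem (hq a ha (l a) (Set.mem_univ _))
    rw [(hp' a haZ).1] at h1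
    have h2 : ((p a (l a)).stem ++ List.replicate (n - N0) ∅).length = n := by
      rw [List.length_append, List.length_replicate, (hA4' a (hZA haZ)).2.2.2.1]
      omega
    have h3 : (v a).stem.length = n + 1 := by
      show (((p a (l a)).stem ++ List.replicate (n - N0) ∅) ++ [Finset.range (num a)]).length = _
      rw [List.length_append, h2]
      rfl
    refine ⟨by have := h1.length_le; omega, ?_⟩
    rw [getD_prefix h1 (by omega)]
    show (((p a (l a)).stem ++ List.replicate (n - N0) ∅) ++ [Finset.range (num a)]).getD n ∅ = _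
    rw [List.getD_append_right _ _ _ _ h2.le, h2]
    simp
  refine ⟨n, hnm, q, Z', fun a ha => hA1A (hA4' a (hZA (hZ' ha))).1, by omega,
    fun a ha => le_trans' low_univ (hq a ha) (hle a (hZ' ha)), fun a ha => (hstem a ha).1, ?_, ?_⟩
  · intro a ha
    rw [(hstem a ha).2, Finset.card_range]
    have := hnum1 a (hZ' ha)
    omega
  · intro a ha b hb hab
    rw [(hstem a ha).2, (hstem b hb).2, Finset.card_range, Finset.card_range]
    exact fun h => hab (hnum2 a (hZ' ha) b (hZ' hb) h)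

end Pool.Agent.TH777.Y
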