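import Pool.Agent.TH777.Y.Card
import Pool.Agent.TH777.Y.Luz

/-!
# Bookkeeping

The coordinates of the iteration are Cohen coordinates, and coordinates `it c β a` of rank `β` and
of kind `c`, where `a` is a code for the promises.
-/

set_option autoImplicit false
set_option linter.unusedSectionVars false

namespace Pool.Agent.TH777.Y

open Classical Cardinal

/-- the coordinates -/
inductive Ix (Z C W Λ : Type) : Type
  | co (z : Z)
  | it (c : C) (β : W) (a : Λ)

variable {M Z C W Λ : Type}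

/-- the bounds at the coordinates -/
def bdI (Z W Λ : Type) (bdc : C → Option (ℕ → ℕ)) : Ix Z C W Λ → Option (ℕ → ℕ)
  | .co _ => none
  | .it c _ _ => bdc c

/-- the ranks of the coordinates -/
def rkI : Ix Z C W Λ → WithBot W
  | .co _ => ⊥
  | .it _ β _ => β

/-- names -/
abbrev NmI (M Z W Λ : Type) (bdc : C → Option (ℕ → ℕ)) : Type := Nm M (bdI Z W Λ bdc)

variable {bdc : C → Option (ℕ → ℕ)} [LinearOrder W] [WellFoundedLT W]

/-- the parameters of the iteration -/
noncomputable def GI (act : C → M → Prop) (nm : C → Λ → M → NmI M Z W Λ bdc) :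
    Par M (WithBot W) (bdI Z W Λ bdc) where
  rk := rkI
  req
    | .co _, _ => none
    | .it c β a, z => if act c z ∧ Supp {i | rkI i < (β : WithBot W)} (nm c a z) then
        some (nm c a z) else none

variable {act : C → M → Prop} {nm : C → Λ → M → NmI M Z W Λ bdc}

theorem req_it {c : C} {β : W} {a : Λ} {z : M} (h1 : act c z)
    (h2 : Supp {i | rkI i < (β : WithBot W)} (nm c a z)) :
    (GI act nm).req (.it c β a) z = some (nm c a z) := if_pos ⟨h1, h2⟩

theorem req_small {c : C} {β : W} {a : Λ} {z : M}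
    (h : (GI act nm).req (.it c β a) z ≠ none) : act c z := by
  by_contra hcon
  exact h (if_neg fun h => hcon h.1)

theorem good_GI : Good (GI act nm) := by
  constructor
  · intro j k x hx
    cases j with
    | co z => exact absurd hx (by simp [GI])
    | it c β a =>
      by_cases h : act c k ∧ Supp {i | rkI i < (β : WithBot W)} (nm c a k)
      · have h1 := req_it h.1 h.2
        rw [h1] at hx
        obtain rfl := Option.some_injective _ hx
        exact h.2
      · have h1 : (GI act nm).req (.it c β a) k = none := if_neg h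
        rw [h1] at hx
        exact absurd hx (by simp)
  · intro j hj
    cases j with
    | co z => exact ⟨rfl, fun k => rfl⟩
    | it c β a =>
      have : ((β : W) : WithBot W) = ⊥ := hj
      exact absurd this WithBot.coe_ne_bot

/-- names for few reals are supported below some rank -/
theorem exists_rank {ι : Type} {c : Cardinal.{0}} (hι : #ι ≤ c) (hc : ℵ₀ ≤ c)
    (hW : ∀ (ι : Type), #ι ≤ c → ∀ f : ι → W, ∃ β, ∀ i, f i < β)
    (x : ι → NmI M Z W Λ bdc) : ∃ β : W, ∀ i, Supp {j | rkI j < (β : WithBot W)} (x i) := by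
  obtain ⟨w0, -⟩ := hW PEmpty (by simp) (fun i => i.elim)
  let g : ι × ℕ × ℕ → WithBot W := fun t =>
    match x t.1 t.2.1 t.2.2 with
    | none => ⊥
    | some u => u.1.supp.sup rkI
  have hcard : #(ι × ℕ × ℕ) ≤ c := by
    simp only [mk_prod, lift_id, mk_nat]
    calc #ι * (ℵ₀ * ℵ₀) ≤ c * (c * c) := mul_le_mul' hι (mul_le_mul' hc hc)
      _ = c := by rw [mul_eq_self hc, mul_eq_self hc]
  obtain ⟨β, hβ⟩ := hW _ hcard fun t => (g t).unbotD w0
  refine ⟨β, fun i n m u v hu j hj => ?_⟩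
  by_contra hne
  apply hj
  have h1 : rkI j ≤ g (i, n, m) := by
    have h2 : g (i, n, m) = u.supp.sup rkI := by
      simp only [g, hu]
    rw [h2]
    exact Finset.le_sup (Cond.mem_supp.2 hne)
  have h3 : g (i, n, m) ≤ ((g (i, n, m)).unbotD w0 : W) := WithBot.le_coe_unbotD _ _
  exact lt_of_le_of_lt (h1.trans h3) (WithBot.coe_lt_coe.2 (hβ (i, n, m)))

/-- the index set of the coordinates as a sum -/
def ixEmb : Ix Z C W Λ → Z ⊕ (C × W × Λ)
  | .co z => Sum.inl z
  | .it c β a => Sum.inr (c, β, a)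

theorem ixEmb_inj : Function.Injective (ixEmb (Z := Z) (C := C) (W := W) (Λ := Λ)) := by
  intro x y h
  cases x <;> cases y <;> simp [ixEmb] at h <;> simp [h]

theorem mk_Ix (hΛ : ℵ₀ ≤ #Λ) (hZ : #Z ≤ #Λ) (hC : #C ≤ ℵ₀) (hW : #W ≤ #Λ) :
    #(Ix Z C W Λ) ≤ #Λ := by
  refine (Cardinal.mk_le_of_injective ixEmb_inj).trans ?_
  simp only [Cardinal.mk_sum, Cardinal.mk_prod, Cardinal.lift_id]
  calc #Z + #C * (#W * #Λ) ≤ #Λ + ℵ₀ * (#Λ * #Λ) :=
        add_le_add hZ (mul_le_mul' hC (mul_le_mul' hW le_rfl))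
    _ = #Λ := by rw [mul_eq_self hΛ, aleph0_mul_eq hΛ, add_eq_self hΛ]

theorem mk_NmI (hM : #M ≤ #Λ) (hΛ : ℵ₀ ≤ #Λ) (hΛ2 : #Λ ^ ℵ₀ = #Λ) (hZ : #Z ≤ #Λ) (hC : #C ≤ ℵ₀)
    (hW : #W ≤ #Λ) : #(NmI M Z W Λ bdc) ≤ #Λ :=
  mk_Nm hΛ hΛ2 hM (mk_Ix hΛ hZ hC hW)

end Pool.Agent.TH777.Y
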