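import Pool.Agent.TH777.Y.Basic

/-!
# Cardinalities
-/

set_option autoImplicit false
set_option linter.unusedSectionVars false

namespace Pool.Agent.TH777.Y

open Classical Cardinal

theorem mk_CV {M : Type} {c : Cardinal.{0}} (hc : ℵ₀ ≤ c) (hM : #M ≤ c) : #(CV M) ≤ c := by
  let f : CV M → List (Finset ℕ) × Finset M := fun v => (v.stem, v.pr)
  have hf : Function.Injective f := by
    rintro ⟨a, b⟩ ⟨a', b'⟩ h
    simp only [f, Prod.mk.injEq] at h
    rw [h.1, h.2]
  refine (Cardinal.mk_le_of_injective hf).trans ?_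
  rw [Cardinal.mk_prod, Cardinal.lift_id, Cardinal.lift_id]
  have h1 : #(Finset M) ≤ c := by
    rcases finite_or_infinite M with h | h
    · exact (Cardinal.lt_aleph0_of_finite _).le.trans hc
    · rw [Cardinal.mk_finset_of_infinite]
      exact hM
  calc #(List (Finset ℕ)) * #(Finset M) ≤ ℵ₀ * c := mul_le_mul' Cardinal.mk_le_aleph0 h1
    _ = c := Cardinal.aleph0_mul_eq hc

theorem mk_Cond {M I : Type} {bd : I → Option (ℕ → ℕ)} {c : Cardinal.{0}} (hc : ℵ₀ ≤ c)
    (hM : #M ≤ c) (hI : #I ≤ c) : #(Cond M bd) ≤ c := by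
  let f : Cond M bd → Finset (I × CV M) := fun u => u.supp.image fun i => (i, u i)
  have hf : Function.Injective f := by
    intro u w h
    have key : ∀ u w : Cond M bd, f u = f w → ∀ i : I, u i ≠ CV.top → w i = u i := by
      intro u w h i hi
      have h2 : (i, u i) ∈ f u := Finset.mem_image.2 ⟨i, Cond.mem_supp.2 hi, rfl⟩
      rw [h] at h2
      obtain ⟨i', _, h3⟩ := Finset.mem_image.1 h2
      rw [Prod.mk.injEq] at h3
      obtain ⟨rfl, h4⟩ := h3
      exact h4
    apply Cond.ext'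
    intro i
    by_cases h2 : u i = CV.top
    · by_cases h3 : w i = CV.top
      · rw [h2, h3]
      · exact key w u h.symm i h3
    · exact (key u w h i h2).symm
  refine (Cardinal.mk_le_of_injective hf).trans ?_
  have h2 : #(I × CV M) ≤ c := by
    rw [Cardinal.mk_prod, Cardinal.lift_id, Cardinal.lift_id]
    calc #I * #(CV M) ≤ c * c := mul_le_mul' hI (mk_CV hc hM)
      _ = c := Cardinal.mul_eq_self hc
  rcases finite_or_infinite (I × CV M) with h3 | h3
  · exact (Cardinal.lt_aleph0_of_finite _).le.trans hc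
  · rw [Cardinal.mk_finset_of_infinite]
    exact h2

theorem mk_Nm {M I : Type} {bd : I → Option (ℕ → ℕ)} {c : Cardinal.{0}} (hc : ℵ₀ ≤ c)
    (hc2 : c ^ ℵ₀ = c) (hM : #M ≤ c) (hI : #I ≤ c) : #(Nm M bd) ≤ c := by
  have h1 : #(Option (Cond M bd × ℕ)) ≤ c := by
    rw [Cardinal.mk_option, Cardinal.mk_prod, Cardinal.lift_id, Cardinal.lift_id]
    have h2 : #(Cond M bd) * #ℕ ≤ c :=
      (mul_le_mul' (mk_Cond hc hM hI) Cardinal.mk_le_aleph0).trans (Cardinal.mul_aleph0_eq hc).le
    calc #(Cond M bd) * #ℕ + 1 ≤ c + c := add_le_add h2 (Cardinal.one_le_aleph0.trans hc)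
      _ = c := Cardinal.add_eq_self hc
  have h2 : #(ℕ → ℕ → Option (Cond M bd × ℕ)) = #(Option (Cond M bd × ℕ)) ^ ℵ₀ := by
    rw [← Cardinal.mk_congr (Equiv.curry ℕ ℕ (Option (Cond M bd × ℕ)))]
    simp
  show #(ℕ → ℕ → Option (Cond M bd × ℕ)) ≤ c
  rw [h2]
  conv_rhs => rw [← hc2]
  exact Cardinal.power_le_power_right h1

/-- `c` many elements of the successor cardinal of `c` are bounded -/
theorem bounded {c : Cardinal.{0}} (hc : ℵ₀ ≤ c) {ι : Type} (hι : #ι ≤ c)
    (f : ι → (Order.succ c).ord.ToType) : ∃ β, ∀ i, f i < β := by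
  by_contra hcon
  push Not at hcon
  have h1 : (Set.univ : Set (Order.succ c).ord.ToType) = ⋃ k, Set.Iic (f k) := by
    ext β
    simp only [Set.mem_univ, Set.mem_iUnion, Set.mem_Iic, true_iff]
    exact hcon β
  have h2 : ∀ k, #(Set.Iic (f k)) ≤ c := by
    intro k
    have h3 : #(Set.Iio (f k)) ≤ c := Order.lt_succ_iff.1 (Cardinal.mk_Iio_toType_ord_lt (f k))
    have h4 : Set.Iic (f k) = insert (f k) (Set.Iio (f k)) := by
      ext β
      simp only [Set.mem_Iic, Set.mem_insert_iff, Set.mem_Iio]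
      exact le_iff_eq_or_lt
    rw [h4]
    refine (Cardinal.mk_insert_le).trans ?_
    exact (add_le_add h3 (Cardinal.one_le_aleph0.trans hc)).trans (Cardinal.add_eq_self hc).le
  have h3 : #(Order.succ c).ord.ToType ≤ c := by
    rw [← Cardinal.mk_univ, h1]
    refine (Cardinal.mk_iUnion_le _).trans ?_
    calc #ι * _ ≤ c * c := mul_le_mul' hι (ciSup_le' h2)
      _ = c := Cardinal.mul_eq_self hc
  rw [Cardinal.mk_ord_toType] at h3
  exact absurd h3 (not_le.2 (Order.lt_succ c))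

/-- a map from a large set has a large fiber -/
theorem large_fiber {K Y : Type} {θ : Cardinal.{0}} (hθ : θ.IsRegular) (hK : θ ≤ #K)
    (hY : #Y < θ) (F : K → Y) : ∃ z, θ ≤ #↥(F ⁻¹' {z}) := by
  by_contra hcon
  push Not at hcon
  have h1 : (Set.univ : Set K) = ⋃ z, F ⁻¹' {z} := by
    ext a
    simp
  have h2 : #(⋃ z, F ⁻¹' {z}) < θ := by
    rw [card_iUnion_lt_iff_forall_of_isRegular hθ hY]
    exact hcon
  rw [← h1, mk_univ] at h2
  exact absurd hK (not_le.2 h2)

/-- more values than `c` -/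
theorem large_fiber' {K Y : Type} {c : Cardinal.{0}} (hc : ℵ₀ < c) (hK : c < #K)
    (hY : #Y ≤ c) (F : K → Y) : ∃ z, ℵ₁ ≤ #↥(F ⁻¹' {z}) := by
  by_contra hcon
  push Not at hcon
  have h1 : (Set.univ : Set K) = ⋃ z, F ⁻¹' {z} := by
    ext a
    simp
  have h2 : #K ≤ c := by
    rw [← Cardinal.mk_univ, h1]
    refine (Cardinal.mk_iUnion_le _).trans ?_
    calc #Y * _ ≤ c * ℵ₀ := by
          apply mul_le_mul' hY
          apply ciSup_le'
          intro z
          have h3 := hcon z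
          rw [← Cardinal.succ_aleph0, Order.lt_succ_iff] at h3
          exact h3
      _ = c := Cardinal.mul_aleph0_eq hc.le
  exact absurd h2 (not_le.2 hK)

end Pool.Agent.TH777.Y
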