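import Pool.Agent.TH777.Y.Luz

/-! # The stem at a coordinate can be made long; names can be replaced by raw names -/

set_option autoImplicit false
set_option linter.unusedSectionVars false

namespace Pool.Agent.TH777.Y

open Classical Pool.Agent.Helper669.Forcing

variable {M I W : Type} {bd : I → Option (ℕ → ℕ)} [LinearOrder W] [WellFoundedLT W]

theorem ext_long (Γ : Par M W bd) (j : I) (N : ℕ) (p : Cond M bd) :
    ∃ p', le Γ Set.univ p' p ∧ N ≤ (p' j).stem.length ∧ (p' j).pr = (p j).pr := by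
  set S : Set I := below Γ (Γ.rk j) with hSdef
  have hS : Low Γ S := low_below _
  have hjS : j ∉ S := fun h => lt_irrefl _ h
  obtain ⟨t, htp, htd⟩ := Val.decideF (Γ := Γ) hS ((p j).pr ×ˢ Finset.range N)
    (fun z : M × ℕ => Γ.req j z.1) (fun z => z.2) p
  have hd' : ∀ k i, ∃ v, k ∈ (p j).pr → i < N → ∀ x,
      Γ.req j k = some x → Val (le Γ S) t x i v := by
    intro k i
    by_cases hk : k ∈ (p j).pr ∧ i < N ∧ ∃ x, Γ.req j k = some x
    · obtain ⟨hk, hi, x, hx⟩ := hk
      obtain ⟨v, hv⟩ := htd (k, i) (Finset.mem_product.2 ⟨hk, Finset.mem_range.2 hi⟩) x hx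
      refine ⟨v, fun _ _ x' hx' => ?_⟩
      rw [hx] at hx'
      rw [← Option.some_injective _ hx']
      exact hv
    · exact ⟨0, fun h4 h5 x hx => absurd ⟨h4, h5, x, hx⟩ hk⟩
  choose v hv using hd'
  set len := (p j).stem.length with hlen
  let g : ℕ → Finset ℕ := fun i => ((p j).pr.image fun k => v k (len + i)).filter
    fun n => ∀ b, bd j = some b → n < b (len + i)
  let st : List (Finset ℕ) := (p j).stem ++ (List.range (N - len)).map g
  have hstlen : st.length = len + (N - len) := by
    simp only [st, List.length_append, List.length_map, List.length_range, hlen]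
  have hst1 : ∀ i < len, st.getD i ∅ = (p j).stem.getD i ∅ := by
    intro i hi
    exact List.getD_append _ _ _ _ hi
  have hst2 : ∀ i, len ≤ i → i < st.length → st.getD i ∅ = g (i - len) := by
    intro i hi hi'
    have h1 : i - len < N - len := by omega
    show ((p j).stem ++ (List.range (N - len)).map g).getD i ∅ = _
    rw [List.getD_append_right _ _ _ _ hi, List.getD_eq_getElem?_getD, List.getElem?_map,
      List.getElem?_range h1]
    rfl
  have hleg : ∀ b, bd j = some b → Legit b (⟨st, (p j).pr⟩ : CV M) := by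
    intro b hj
    have hl := p.legit hj
    refine ⟨?_, ?_⟩
    · show (p j).pr.card ≤ st.length
      have := hl.1
      omega
    · intro i hi
      show (st.getD i ∅).card ≤ i ∧ ∀ a ∈ st.getD i ∅, a < b i
      have hi' : i < st.length := hi
      by_cases h : i < len
      · rw [hst1 i h]
        exact hl.2 i h
      · rw [hst2 i (not_lt.1 h) hi']
        have h1 : (g (i - len)).card ≤ (p j).pr.card :=
          (Finset.card_filter_le _ _).trans Finset.card_image_le
        have h2 := hl.1
        refine ⟨by omega, fun a ha => ?_⟩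
        have h3 := (Finset.mem_filter.1 ha).2 b hj
        have h4 : len + (i - len) = i := by omega
        rwa [h4] at h3
  let p1 : Cond M bd := mix S t p
  let p' : Cond M bd := upd p1 j ⟨st, (p j).pr⟩ hleg
  have hp'j : p' j = ⟨st, (p j).pr⟩ := upd_same p1 j _ hleg
  have hp'S : ∀ i ∈ S, p' i = t i := by
    intro i hi
    have hne : i ≠ j := fun h => hjS (h ▸ hi)
    rw [upd_of_ne p1 _ hleg hne]
    exact mix_mem t p hi
  have hp'o : ∀ i, i ∉ S → i ≠ j → p' i = p i := by
    intro i hi hne
    rw [upd_of_ne p1 _ hleg hne]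
    exact mix_notMem t p hi
  refine ⟨p', ?_, ?_, ?_⟩
  · intro i _
    by_cases hi : i ∈ S
    · exact ext_congr i (fun l hl => (hp'S l (hS i hi l hl)).symm) (hp'S i hi).symm rfl (htp i hi)
    · by_cases hij : i = j
      · subst hij
        rw [ext_iff, hp'j]
        refine ⟨List.prefix_append _ _, Finset.Subset.refl _, ?_⟩
        intro k hk x hx m hm hm' t' ht' n hn hnb
        have htt : le Γ S t' t := le_trans' hS ht'
          (le_congr hS (fun l hl => (hp'S l hl).symm) (fun _ _ => rfl) (le_refl' S t))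
        have hm1 : m < st.length := hm'
        have hm2 : len ≤ m := hm
        have hmN : m < N := by omega
        have h1 : Val (le Γ S) t' x m (v k m) := (hv k m hk hmN x hx).mono hS htt
        have h2 : n = v k m := Val.unique hn h1
        show n ∈ st.getD m ∅
        rw [hst2 m hm2 hm1]
        have h3 : len + (m - len) = m := by omega
        refine Finset.mem_filter.2 ⟨Finset.mem_image.2 ⟨k, hk, ?_⟩, ?_⟩
        · simp only [h3]
          exact h2.symm
        · intro b hb
          rw [h3]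
          exact hnb b hb
      · exact ext_of_eq (hp'o i hi hij)
  · rw [hp'j]
    show N ≤ st.length
    omega
  · rw [hp'j]

/-- the countable chain condition -/
def CCC (Γ : Par M W bd) : Prop :=
  ∀ A : Set (Cond M bd), ¬ A.Countable → ∃ p ∈ A, ∃ q ∈ A, p ≠ q ∧
    ∃ r, le Γ Set.univ r p ∧ le Γ Set.univ r q

theorem exists_predense {Γ : Par M W bd} (hccc : CCC Γ) (φ : Set (Cond M bd)) :
    ∃ g : ℕ → Option (Cond M bd), (∀ m u, g m = some u → u ∈ φ) ∧
      ∀ p ∈ φ, ∃ m a, g m = some a ∧ ∃ r, le Γ Set.univ r p ∧ le Γ Set.univ r a := by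
  have : ∃ A, Maximal (fun A : Set (Cond M bd) => A ⊆ φ ∧
      ∀ p ∈ A, ∀ q ∈ A, p ≠ q → ¬ ∃ r, le Γ Set.univ r p ∧ le Γ Set.univ r q) A := by
    apply zorn_subset {A : Set (Cond M bd) | A ⊆ φ ∧
      ∀ p ∈ A, ∀ q ∈ A, p ≠ q → ¬ ∃ r, le Γ Set.univ r p ∧ le Γ Set.univ r q}
    intro c hc hchain
    refine ⟨⋃₀ c, ⟨Set.sUnion_subset fun A hA => (hc hA).1, ?_⟩,
      fun s hs => Set.subset_sUnion_of_mem hs⟩
    rintro p ⟨A, hA, hpA⟩ q ⟨B, hB, hqB⟩ hne
    rcases hchain.total hA hB with h | h
    · exact (hc hB).2 p (h hpA) q hqB hne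
    · exact (hc hA).2 p hpA q (h hqB) hne
  obtain ⟨A, ⟨h1, h2⟩, hmax⟩ := this
  have hcount : A.Countable := by
    by_contra hcon
    obtain ⟨p, hp, q, hq, hne, h⟩ := hccc A hcon
    exact h2 p hp q hq hne h
  have hdense : ∀ p ∈ φ, ∃ a ∈ A, ∃ r, le Γ Set.univ r p ∧ le Γ Set.univ r a := by
    intro p hp
    by_contra hcon
    push Not at hcon
    have hpA : p ∉ A := fun h => hcon p h p (le_refl' Set.univ p) (le_refl' Set.univ p)
    apply hpA
    refine hmax (y := insert p A) ⟨Set.insert_subset hp h1, ?_⟩ (Set.subset_insert p A)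
      (Set.mem_insert p A)
    rintro x (rfl | hx) y (rfl | hy) hne
    · exact absurd rfl hne
    · rintro ⟨r, hr1, hr2⟩
      exact hcon y hy r hr1 hr2
    · rintro ⟨r, hr1, hr2⟩
      exact hcon x hx r hr2 hr1
    · exact h2 x hx y hy hne
  rcases A.eq_empty_or_nonempty with h | h
  · refine ⟨fun _ => none, fun m u hu => by simp at hu, fun p hp => ?_⟩
    obtain ⟨a, ha, -⟩ := hdense p hp
    rw [h] at ha
    exact absurd ha (Set.notMem_empty a)
  · obtain ⟨g, hg⟩ := hcount.exists_eq_range h
    refine ⟨fun m => some (g m), ?_, fun p hp => ?_⟩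
    · intro m u hu
      have : g m = u := Option.some_injective _ hu
      exact h1 (by rw [hg, ← this]; exact Set.mem_range_self m)
    · obtain ⟨a, ha, hr⟩ := hdense p hp
      rw [hg] at ha
      obtain ⟨m, rfl⟩ := ha
      exact ⟨m, g m, rfl, hr⟩

/-- names for functions can be replaced by raw names -/
theorem rawF (Γ : Par M W bd) (hccc : CCC Γ) (x : ℕ → ℕ → Set (PP Γ)) (p : PP Γ)
    (hp : p ∈ IsFun x) :
    ∃ X : Nm M bd, ∀ q : PP Γ, q ≤ p → ∀ n v, Val (le Γ Set.univ) q X n v → q ∈ meets (x n v) := by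
  let φ : ℕ → Set (Cond M bd) := fun n =>
    {q | le Γ Set.univ q p.toC ∧ ∃ v, (q : PP Γ) ∈ meets (x n v)}
  choose g hg1 hg2 using fun n => exists_predense hccc (φ n)
  let val : ℕ → Cond M bd → ℕ := fun n u =>
    if h : ∃ v, (u : PP Γ) ∈ meets (x n v) then Classical.choose h else 0
  have hval : ∀ n (u : Cond M bd), (∃ v, (u : PP Γ) ∈ meets (x n v)) →
      (u : PP Γ) ∈ meets (x n (val n u)) := by
    intro n u h
    simp only [val, dif_pos h]
    exact Classical.choose_spec h
  refine ⟨fun n m => (g n m).map fun u => (u, val n u), ?_⟩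
  intro q hq n v hv
  rcases hv with ⟨m, u, h1, h2, _⟩ | ⟨_, h2⟩
  · obtain ⟨u', hu', he⟩ := Option.map_eq_some_iff.1 h1
    have h3 : u' = u := (Prod.mk.inj he).1
    have h4 : val n u' = v := (Prod.mk.inj he).2
    rw [h3] at hu' h4
    have h5 : u ∈ φ n := hg1 n m u hu'
    have h6 := hval n u h5.2
    rw [h4] at h6
    exact down_meets (P := PP Γ) _ u h6 q h2
  · exfalso
    obtain ⟨r, hr, v', hv'⟩ := IsFun.total (down_IsFun x p hp q hq) n
    have h3 : r.toC ∈ φ n := ⟨(hr.trans hq : r ≤ p), v', hv'⟩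
    obtain ⟨m, a, hm, s, hs, hs'⟩ := hg2 n r.toC h3
    refine h2 m a (val n a) ?_ ⟨s, ?_, hs'⟩
    · show (g n m).map _ = _
      rw [hm]
      rfl
    · exact le_trans' low_univ hs hr

end Pool.Agent.TH777.Y
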