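import Pool.Agent.TH777.Y.Ext
import Pool.Agent.TH777.Y.Sent

/-!
# The sentences are forced
-/

set_option autoImplicit false
set_option linter.unusedSectionVars false

namespace Pool.Agent.TH777.Y

open Classical Cardinal Pool.Agent.Helper669.Forcing

variable {M I W : Type} {bd : I → Option (ℕ → ℕ)} [LinearOrder W] [WellFoundedLT W]
  {Γ : Par M W bd}

theorem getD_eq_of_common {a b c : Cond M bd} {j : I} {n : ℕ} (h1 : le Γ Set.univ c a)
    (h2 : le Γ Set.univ c b) (ha : n < (a j).stem.length) (hb : n < (b j).stem.length) :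
    (a j).stem.getD n ∅ = (b j).stem.getD n ∅ := by
  rw [← getD_prefix (ext_stem (h1 j (Set.mem_univ _))) ha,
    ← getD_prefix (ext_stem (h2 j (Set.mem_univ _))) hb]

theorem length_le {a c : Cond M bd} (j : I) (h : le Γ Set.univ c a) :
    (a j).stem.length ≤ (c j).stem.length := (ext_stem (h j (Set.mem_univ _))).length_le

/-- the slalom added at the coordinate `j` -/
def slN (Γ : Par M W bd) (j : I) : ℕ → ℕ → Set (PP Γ) := fun n v =>
  {r | n < (PP.toC r j).stem.length ∧ v ∈ (PP.toC r j).stem.getD n ∅}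

/-- the function with the values `G n (stem n)` added at the coordinate `j` -/
def fnN (Γ : Par M W bd) (j : I) (G : ℕ → Finset ℕ → ℕ) : ℕ → ℕ → Set (PP Γ) := fun n b =>
  {r | n < (PP.toC r j).stem.length ∧ G n ((PP.toC r j).stem.getD n ∅) = b}

theorem isFun_fnN (j : I) (G : ℕ → Finset ℕ → ℕ) (p : PP Γ) : p ∈ IsFun (fnN Γ j G) := by
  refine ⟨fun n => ?_, fun n y y' => ?_⟩
  · refine mem_fex.2 fun r hr => ?_
    obtain ⟨r', hr', hlen, -⟩ := ext_long Γ j (n + 1) (PP.toC r)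
    refine ⟨(r' : PP Γ), hr', G n ((r' j).stem.getD n ∅), ?_⟩
    exact meets_of_mem (P := PP Γ) (N := fnN Γ j G n _) (p := r') ⟨hlen, rfl⟩
  · refine mem_fimp.2 fun r hr h => ⟨r, le_rfl, ?_⟩
    obtain ⟨s, hs, z, hz, hsz⟩ := h.1 r le_rfl
    obtain ⟨s', hs', z', hz', hsz'⟩ := h.2 s hs
    have h1 : le Γ Set.univ (PP.toC s') (PP.toC z) := hs'.trans hsz
    have h2 : le Γ Set.univ (PP.toC s') (PP.toC z') := hsz'
    show y = y'
    rw [← hz.2, ← hz'.2, getD_eq_of_common h1 h2 hz.1 hz'.1]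

theorem slalomN_slN (j : I) {b : ℕ → ℕ} (hb : bd j = some b) (p : PP Γ) :
    p ∈ SlalomN (fun n => n) (slN Γ j) := by
  intro n t
  refine mem_fimp.2 fun r hr hn => ⟨r, le_rfl, ?_⟩
  have hn' : n < t.card := hn
  refine mem_fex.2 fun s hs => ?_
  obtain ⟨s', hs', hlen, -⟩ := ext_long Γ j (n + 1) (PP.toC s)
  have hcard : ((s' j).stem.getD n ∅).card ≤ n := ((s'.legit hb).2 n (by omega)).1
  obtain ⟨v, hv, hv'⟩ := Finset.exists_mem_notMem_of_card_lt_card (hcard.trans_lt hn')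
  refine ⟨(s' : PP Γ), hs', v, hv, ?_⟩
  intro u hu hm
  obtain ⟨w, hw, z, hz, hwz⟩ := hm u le_rfl
  apply hv'
  have h1 : le Γ Set.univ (PP.toC w) s' := hw.trans hu
  have h2 : le Γ Set.univ (PP.toC w) (PP.toC z) := hwz
  rw [getD_eq_of_common h1 h2 (by omega) hz.1]
  exact hz.2

/-- a promise can be added -/
theorem add_promise (j : I) (m : M) (r : Cond M bd) :
    ∃ r1 : Cond M bd, le Γ Set.univ r1 r ∧ m ∈ (r1 j).pr := by
  obtain ⟨r', hr', hlen, hpr⟩ := ext_long Γ j ((r j).pr.card + 1) r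
  have hleg : ∀ b, bd j = some b → Legit (M := M) b ⟨(r' j).stem, insert m (r' j).pr⟩ := by
    intro b hb
    refine ⟨?_, (r'.legit hb).2⟩
    refine (Finset.card_insert_le _ _).trans ?_
    rw [hpr]
    exact hlen
  let r1 : Cond M bd := upd r' j ⟨(r' j).stem, insert m (r' j).pr⟩ hleg
  have hr1j : r1 j = ⟨(r' j).stem, insert m (r' j).pr⟩ := upd_same _ _ _ _
  have hr1 : le Γ Set.univ r1 r' := by
    intro i _
    by_cases hi : i = j
    · subst hi
      exact ext_same_stem (by rw [hr1j]) (by rw [hr1j]; exact Finset.subset_insert _ _)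
    · exact ext_of_eq (upd_of_ne _ _ _ hi)
  refine ⟨r1, le_trans' low_univ hr1 hr', ?_⟩
  rw [hr1j]
  exact Finset.mem_insert_self _ _

/-- what the promises do -/
theorem promise_kept (hsupp : ∀ j k x, Γ.req j k = some x → Supp (below Γ (Γ.rk j)) x)
    {j : I} {m : M} {X : Nm M bd} (hreq : Γ.req j m = some X) {r r1 a : Cond M bd}
    (hm : m ∈ (r1 j).pr) (ha : le Γ Set.univ a r1) {n v : ℕ} (hn : (r1 j).stem.length ≤ n)
    (hlen : n < (a j).stem.length) (hv : Val (le Γ Set.univ) a X n v)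
    (hb : ∀ b, bd j = some b → v < b n) : v ∈ (a j).stem.getD n ∅ := by
  have h1 : ext Γ j a r1 := ha j (Set.mem_univ _)
  rw [ext_iff] at h1
  refine h1.2.2 m hm _ hreq n hn hlen a (le_refl' _ _) v ?_ hb
  exact (Val.iff_of_supp (low_below _) (Set.subset_univ _) (hsupp _ _ _ hreq)).1 hv

/-- capturing -/
theorem captures (hsupp : ∀ j k x, Γ.req j k = some x → Supp (below Γ (Γ.rk j)) x)
    {j : I} {m : M} {X : Nm M bd} (hreq : Γ.req j m = some X) {b : ℕ → ℕ} (hbd : bd j = some b)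
    (x : ℕ → ℕ → Set (PP Γ)) (q : PP Γ)
    (hX : ∀ q' : PP Γ, q' ≤ q → ∀ n v, Val (le Γ Set.univ) q' X n v → q' ∈ meets (x n v))
    (hb : q ∈ LtN x b) : q ∈ CapturesN (slN Γ j) x := by
  refine mem_fex.2 fun r hr => ?_
  obtain ⟨r1, hr1, hm⟩ := add_promise (Γ := Γ) j m (PP.toC r)
  have hr1r : (@LE.le (PP Γ) _ r1 r) := hr1
  refine ⟨r1, hr1r, (r1 j).stem.length, ?_⟩
  intro n
  refine mem_fimp.2 fun R2 hR2 hn => ⟨R2, le_rfl, ?_⟩
  have hn' : (r1 j).stem.length ≤ n := hn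
  refine mem_fex.2 fun R3 hR3 => ?_
  obtain ⟨a1, ha1, hl1, -⟩ := ext_long Γ j (n + 1) (PP.toC R3)
  obtain ⟨a2, ha2, v, hv⟩ := Val.dense (Γ := Γ) low_univ a1 X n
  have h2R3 : (@LE.le (PP Γ) _ a2 R3) := le_trans' low_univ ha2 ha1
  have h2r1 : (@LE.le (PP Γ) _ a2 r1) := h2R3.trans (hR3.trans hR2)
  have h2q : (@LE.le (PP Γ) _ a2 q) := h2r1.trans (hr1r.trans hr)
  have hlj : n < (a2 j).stem.length := lt_of_lt_of_le hl1 (length_le j ha2)
  have hxv : (a2 : PP Γ) ∈ meets (x n v) := hX a2 h2q n v hv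
  have hvb : v < b n := by
    obtain ⟨s, _, hs⟩ := mem_fimp.1 (hb n v) a2 h2q hxv
    exact hs
  have hmem : v ∈ (a2 j).stem.getD n ∅ :=
    promise_kept (r := r1) hsupp hreq hm h2r1 hn' hlj hv (fun b' hb' => by
      rw [hbd] at hb'
      obtain rfl := Option.some_injective _ hb'
      exact hvb)
  refine ⟨(a2 : PP Γ), h2R3, v, hxv, ?_⟩
  exact meets_of_mem (P := PP Γ) (N := slN Γ j n v) (p := a2) ⟨hlj, hmem⟩

/-- domination -/
theorem dominates (hsupp : ∀ j k x, Γ.req j k = some x → Supp (below Γ (Γ.rk j)) x)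
    {j : I} {m : M} {X : Nm M bd} (hreq : Γ.req j m = some X) (hbd : bd j = none)
    (x : ℕ → ℕ → Set (PP Γ)) (q : PP Γ)
    (hX : ∀ q' : PP Γ, q' ≤ q → ∀ n v, Val (le Γ Set.univ) q' X n v → q' ∈ meets (x n v)) :
    q ∈ DominatesN (fnN Γ j fun _ s => s.sup id) x := by
  refine mem_fex.2 fun r hr => ?_
  obtain ⟨r1, hr1, hm⟩ := add_promise (Γ := Γ) j m (PP.toC r)
  have hr1r : (@LE.le (PP Γ) _ r1 r) := hr1
  refine ⟨r1, hr1r, (r1 j).stem.length, ?_⟩
  intro n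
  refine mem_fimp.2 fun R2 hR2 hn => ⟨R2, le_rfl, ?_⟩
  have hn' : (r1 j).stem.length ≤ n := hn
  refine mem_fex.2 fun R3 hR3 => ?_
  obtain ⟨a1, ha1, hl1, -⟩ := ext_long Γ j (n + 1) (PP.toC R3)
  obtain ⟨a2, ha2, v, hv⟩ := Val.dense (Γ := Γ) low_univ a1 X n
  have h2R3 : (@LE.le (PP Γ) _ a2 R3) := le_trans' low_univ ha2 ha1
  have h2r1 : (@LE.le (PP Γ) _ a2 r1) := h2R3.trans (hR3.trans hR2)
  have h2q : (@LE.le (PP Γ) _ a2 q) := h2r1.trans (hr1r.trans hr)
  have hlj : n < (a2 j).stem.length := lt_of_lt_of_le hl1 (length_le j ha2)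
  have hmem : v ∈ (a2 j).stem.getD n ∅ :=
    promise_kept (r := r1) hsupp hreq hm h2r1 hn' hlj hv (fun b' hb' => by
      rw [hbd] at hb'
      exact absurd hb' (by simp))
  refine ⟨(a2 : PP Γ), h2R3, v, ?_⟩
  refine mem_fex.2 fun b hb => ⟨b, le_rfl, ((a2 j).stem.getD n ∅).sup id, ?_, ?_, ?_⟩
  · exact down_meets _ _ (hX a2 h2q n v hv) _ hb
  · exact down_meets _ _ (meets_of_mem (P := PP Γ)
      (N := fnN Γ j (fun _ s => s.sup id) n _) (p := a2) ⟨hlj, rfl⟩) _ hb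
  · exact Finset.le_sup (f := id) hmem

theorem forced_cap (hsupp : ∀ j k x, Γ.req j k = some x → Supp (below Γ (Γ.rk j)) x)
    (hccc : CCC Γ) (K : Type) (b : ℕ → ℕ)
    (hreq : ∀ x : K → Nm M bd, ∃ j, bd j = some b ∧ ∀ k, ∃ m, Γ.req j m = some (x k))
    (p : PP Γ) : p ∈ CapN (PP Γ) K b := by
  intro x
  refine mem_fimp.2 fun q hq hx => ⟨q, le_rfl, ?_⟩
  choose X hX using fun k => rawF Γ hccc (x k) q (hx k).1
  obtain ⟨j, hj, hjm⟩ := hreq X
  refine mem_fex_of_mem (slN Γ j) (down_fand (down_fall fun _ => down_fall fun _ =>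
    down_fimp _ _) (down_fall fun _ => down_fex _)) ⟨slalomN_slN j hj q, fun k => ?_⟩
  obtain ⟨m, hm⟩ := hjm k
  exact captures hsupp hm hj (x k) q (hX k) (hx k).2

theorem forced_dom (hsupp : ∀ j k x, Γ.req j k = some x → Supp (below Γ (Γ.rk j)) x)
    (hccc : CCC Γ) (K : Type)
    (hreq : ∀ x : K → Nm M bd, ∃ j, bd j = none ∧ ∀ k, ∃ m, Γ.req j m = some (x k))
    (p : PP Γ) : p ∈ DomN (PP Γ) K := by
  intro x
  refine mem_fimp.2 fun q hq hx => ⟨q, le_rfl, ?_⟩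
  choose X hX using fun k => rawF Γ hccc (x k) q (hx k)
  obtain ⟨j, hj, hjm⟩ := hreq X
  refine mem_fex_of_mem (fnN Γ j fun _ s => s.sup id) (down_fand (down_IsFun _)
    (down_fall fun _ => down_fex _)) ⟨isFun_fnN j _ q, fun k => ?_⟩
  obtain ⟨m, hm⟩ := hjm k
  exact dominates hsupp hm hj (x k) q (hX k)

theorem forced_capAll (hsupp : ∀ j k x, Γ.req j k = some x → Supp (below Γ (Γ.rk j)) x)
    (hccc : CCC Γ) (Ω : Type) (b : ℕ → ℕ) (sl : Ω → I) (hsl : ∀ β, bd (sl β) = some b)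
    (hreq : ∀ x : Nm M bd, ∃ β m, Γ.req (sl β) m = some x)
    (p : PP Γ) : p ∈ CapAllN (PP Γ) Ω b := by
  refine mem_fex_of_mem (fun β => slN Γ (sl β)) (down_fand (down_fall fun _ => down_fall fun _ =>
    down_fall fun _ => down_fimp _ _) (down_fall fun _ => down_fimp _ _))
    ⟨fun β => slalomN_slN _ (hsl β) p, fun x => ?_⟩
  refine mem_fimp.2 fun q hq hx => ⟨q, le_rfl, ?_⟩
  obtain ⟨X, hX⟩ := rawF Γ hccc x q hx.1
  obtain ⟨β, m, hm⟩ := hreq X
  exact mem_fex_of_mem β (down_fex _) (captures hsupp hm (hsl β) x q hX hx.2)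

theorem forced_domAll (hsupp : ∀ j k x, Γ.req j k = some x → Supp (below Γ (Γ.rk j)) x)
    (hccc : CCC Γ) (Ω : Type) (dm : Ω → I) (hdm : ∀ β, bd (dm β) = none)
    (hreq : ∀ x : Nm M bd, ∃ β m, Γ.req (dm β) m = some x)
    (p : PP Γ) : p ∈ DomAllN (PP Γ) Ω := by
  refine mem_fex_of_mem (fun β => fnN Γ (dm β) fun _ s => s.sup id) (down_fand
    (down_fall fun _ => down_IsFun _) (down_fall fun _ => down_fimp _ _))
    ⟨fun β => isFun_fnN _ _ p, fun x => ?_⟩
  refine mem_fimp.2 fun q hq hx => ⟨q, le_rfl, ?_⟩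
  obtain ⟨X, hX⟩ := rawF Γ hccc x q hx
  obtain ⟨β, m, hm⟩ := hreq X
  exact mem_fex_of_mem β (down_fex _) (dominates hsupp hm (hdm β) x q hX)

/-- the values of the bounded Cohen reals -/
def cut (B : ℕ → ℕ) (n : ℕ) (s : Finset ℕ) : ℕ := if s.card < B n then s.card else 0

theorem forced_notCap [OrderBot W] {θ : Cardinal.{0}} {B : ℕ → ℕ}
    (hL : Luz Γ θ B fun n => 2 ^ n) (K M' : Type) (lc : K → I)
    (hinj : Function.Injective lc) (hrk : ∀ l, Γ.rk (lc l) = ⊥)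
    (hF : ∀ F : K → M' × ℕ, ∃ z, θ ≤ #↥(F ⁻¹' {z})) (p : PP Γ) :
    p ∈ NotCapN (PP Γ) K M' B := by
  let y : K → ℕ → ℕ → Set (PP Γ) := fun l => fnN Γ (lc l) (cut B)
  refine mem_fex.2 fun p1 hp1 => ⟨p1, le_rfl, y, ?_, ?_⟩
  · intro l
    refine ⟨isFun_fnN _ _ _, fun n v => ?_⟩
    refine mem_fimp.2 fun r hr h => ⟨r, le_rfl, ?_⟩
    obtain ⟨s, hs, z, hz, hsz⟩ := h r le_rfl
    show v ≤ B n
    rw [← hz.2]
    unfold cut
    split_ifs with h
    · exact h.le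
    · exact Nat.zero_le _
  · intro S
    refine mem_fimp.2 fun q hq hS => ⟨q, le_rfl, ?_⟩
    refine mem_fex.2 fun r hr => ?_
    by_contra hcon
    -- for each `l` a bad pair and a condition
    have hbad : ∀ l : K, ∃ (i : M') (N : ℕ) (s : PP Γ), s ≤ r ∧ ∀ s' ≤ s, ∀ n, N ≤ n → ∀ v,
        s' ∈ meets (y l n v) → ∃ s'' ≤ s', s'' ∈ meets (S i n v) := by
      intro l
      have h1 : ¬ (r ∈ fall fun i => fall fun N => fex fun n => fand (fground (N ≤ n))
        (fex fun v => fand (meets (y l n v)) (fnot (meets (S i n v))))) :=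
        fun h => hcon ⟨r, le_rfl, l, h⟩
      simp only [mem_fall, not_forall] at h1
      obtain ⟨i, N, h1⟩ := h1
      rw [mem_fex] at h1
      push Not at h1
      obtain ⟨s, hs, h2⟩ := h1
      refine ⟨i, N, s, hs, fun s' hs' n hn v hv => ?_⟩
      by_contra hno
      push Not at hno
      apply h2 s' hs' n
      refine ⟨hn, mem_fex.2 fun u hu => ⟨u, le_rfl, v, down_meets _ _ hv _ hu, ?_⟩⟩
      intro w hw hm
      exact hno w (hw.trans hu) hm
    choose i N s hs hs2 using hbad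
    obtain ⟨⟨i0, N0⟩, hunc⟩ := hF fun l => (i l, N l)
    obtain ⟨n, hn, q', Z, hZA, hZc, hZle, hZlen, hZB, hZinj⟩ := hL K _ hunc
      (fun l => PP.toC (s l)) lc (fun a _ => hrk a) hinj.injOn N0
    let v : K → ℕ := fun a => ((q' (lc a)).stem.getD n ∅).card
    have hcut : ∀ a ∈ Z, cut B n ((q' (lc a)).stem.getD n ∅) = v a := by
      intro a ha
      simp only [cut, if_pos (hZB a ha), v]
    have hstep : ∀ Z' : Finset K, Z' ⊆ Z → ∃ q2 : PP Γ, (@LE.le (PP Γ) _ q2 q') ∧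
        ∀ a ∈ Z', q2 ∈ meets (S i0 n (v a)) := by
      intro Z'
      induction Z' using Finset.induction_on with
      | empty => exact fun _ => ⟨q', le_refl' _ _, fun a ha => absurd ha (Finset.notMem_empty _)⟩
      | insert a Z' _ ih =>
        intro hsub
        obtain ⟨q2, h1, h2⟩ := ih ((Finset.subset_insert _ _).trans hsub)
        have haZ : a ∈ Z := hsub (Finset.mem_insert_self _ _)
        have haA : (i a, N a) = (i0, N0) := hZA haZ
        have hia : i a = i0 := (Prod.mk.inj haA).1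
        have hNa : N a = N0 := (Prod.mk.inj haA).2
        have h3 : (@LE.le (PP Γ) _ q' (s a)) := hZle a haZ
        have h4 : (q' : PP Γ) ∈ meets (y a n (v a)) :=
          meets_of_mem (P := PP Γ) (N := y a n (v a)) (p := q') ⟨hZlen a haZ, hcut a haZ⟩
        have h13 : (@LE.le (PP Γ) _ q2 (s a)) := le_trans' low_univ h1 h3
        obtain ⟨q3, h5, h6⟩ := hs2 a q2 h13 n (by rw [hNa]; exact hn) (v a)
          (down_meets (P := PP Γ) _ _ h4 _ h1)
        rw [hia] at h6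
        refine ⟨q3, le_trans' low_univ h5 h1, fun b hb => ?_⟩
        rcases Finset.mem_insert.1 hb with rfl | hb
        · exact h6
        · exact down_meets _ _ (h2 b hb) _ h5
    obtain ⟨q2, hq2, hq2S⟩ := hstep Z Finset.Subset.rfl
    have hcard : 2 ^ n < (Z.image v).card := by
      rw [Finset.card_image_of_injOn]
      · exact hZc
      · intro a ha b hb hab
        by_contra hne
        exact hZinj a ha b hb hne hab
    have hZne : Z.Nonempty := by
      rw [← Finset.card_pos]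
      exact lt_of_le_of_lt (Nat.zero_le _) hZc
    obtain ⟨a0, ha0⟩ := hZne
    have hq'r : (@LE.le (PP Γ) _ q' r) := le_trans' low_univ (hZle a0 ha0) (hs a0)
    have hq2q : q2 ≤ q := le_trans' low_univ (le_trans' low_univ hq2 hq'r) hr
    obtain ⟨r4, hr4, h4⟩ := mem_fimp.1 (hS i0 n (Z.image v)) q2 hq2q hcard
    obtain ⟨r5, hr5, v0, hv0, h5⟩ := mem_fex.1 h4 r4 le_rfl
    obtain ⟨a, ha, hav⟩ := Finset.mem_image.1 hv0
    apply h5 r5 le_rfl
    rw [← hav]
    exact down_meets _ _ (hq2S a ha) _ (hr5.trans hr4)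

theorem ccc_of_luz [OrderBot W] {B : ℕ → ℕ} (hL : Luz Γ ℵ₁ B fun n => 2 ^ n) {K : Type}
    (hK : ℵ₁ ≤ #K) (g : K → I) (hg : Function.Injective g) (hrk : ∀ k, Γ.rk (g k) = ⊥) :
    CCC Γ := by
  intro A hA
  have h1 : ℵ₁ ≤ #A := by
    rw [← not_lt, ← Cardinal.succ_aleph0, Order.lt_succ_iff]
    exact fun h => hA (Cardinal.le_aleph0_iff_set_countable.1 h)
  obtain ⟨A', hBA, hB⟩ := Cardinal.le_mk_iff_exists_subset.1 h1
  have h2 : #A' ≤ #K := by
    rw [hB]; exact hK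
  obtain ⟨e⟩ := h2
  obtain ⟨n, -, q, Z, -, hc, hq, -, -⟩ := hL A' Set.univ (by rw [mk_univ, hB])
    (fun b => b.1) (fun b => g (e b))
    (fun b _ => hrk _) (fun b _ b' _ h => e.injective (hg h)) 0
  have hc' : 1 < Z.card := lt_of_le_of_lt Nat.one_le_two_pow hc
  obtain ⟨a, ha, b, hb, hab⟩ := Finset.one_lt_card.1 hc'
  exact ⟨a.1, hBA a.2, b.1, hBA b.2, fun h => hab (Subtype.ext h), q, hq a ha, hq b hb⟩

end Pool.Agent.TH777.Y
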