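import Pool.Agent.TH777.Y.Infinite

/-!
# A Yorioka ideal with a smaller additivity and a larger cofinality than that of the identity
-/

set_option autoImplicit false
set_option linter.unusedSectionVars false

namespace Pool.Agent.TH777.Y

open Classical Cardinal Pool.Agent.Helper669.Forcing

theorem bb_id_le (m i : ℕ) : bb (fun n => n) i ≤ bb (ff m) i := bb_mono (fun n => le_ff m n) i

theorem exists_forcing_id : ∃ (K Ω L P : Type) (_ : Preorder P), ℵ₀ ≤ #Ω ∧ Nonempty P ∧
    (∀ A : Set P, (∀ p ∈ A, ∀ q ∈ A, p ≠ q → ¬ ∃ r, r ≤ p ∧ r ≤ q) → A.Countable) ∧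
    ∀ p : P, p ∈ PsiHolds P K Ω L (ff 0) := by
  let K : Type := (ℵ₁ : Cardinal.{0}).ord.ToType
  have hK : #K = ℵ₁ := Cardinal.mk_ord_toType _
  let W : Type := (Order.succ #K).ord.ToType
  let Λ : Type := Set W
  have hK0 : ℵ₀ < #K := by
    rw [hK]; exact aleph0_lt_aleph_one
  have hW : #W = Order.succ #K := Cardinal.mk_ord_toType _
  have hKW : #K < #W := by
    rw [hW]; exact Order.lt_succ _
  have hW0 : ℵ₀ ≤ #W := (hK0.trans hKW).le
  have hΛ : #Λ = 2 ^ #W := Cardinal.mk_set
  have hWΛ : #W < #Λ := by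
    rw [hΛ]; exact Cardinal.cantor _
  have hΛ0 : ℵ₀ ≤ #Λ := hW0.trans hWΛ.le
  have hpow : ∀ a : Cardinal.{0}, a ≠ 0 → a ≤ #W → #Λ ^ a = #Λ := by
    intro a ha0 ha
    rw [hΛ, ← Cardinal.power_mul, Cardinal.mul_eq_left hW0 ha ha0]
  -- the kinds of the coordinates: `c.1` says whether the coordinate is bounded, `c.2` whether
  -- all names are used
  let bdc : Bool × Bool → Option (ℕ → ℕ) := fun c => if c.1 then some (bb fun n => n) else none
  have hN : #(NmI Λ Λ W Λ bdc) ≤ #Λ :=
    mk_NmI le_rfl hΛ0 (hpow _ aleph0_ne_zero hW0) le_rfl mk_le_aleph0 hWΛ.le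
  obtain ⟨e, he⟩ : ∃ e : Λ → (K → NmI Λ Λ W Λ bdc), Function.Surjective e := by
    have h1 : #(K → NmI Λ Λ W Λ bdc) ≤ #Λ := by
      rw [← Cardinal.power_def]
      conv_rhs => rw [← hpow #K (aleph0_pos.trans hK0).ne' hKW.le]
      exact Cardinal.power_le_power_right hN
    obtain ⟨g⟩ := h1
    have : Nonempty (K → NmI Λ Λ W Λ bdc) := ⟨fun _ _ _ => none⟩
    exact ⟨Function.invFun g, Function.invFun_surjective g.injective⟩
  obtain ⟨e', he'⟩ : ∃ e' : Λ → NmI Λ Λ W Λ bdc, Function.Surjective e' := by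
    obtain ⟨g⟩ := hN
    have : Nonempty (NmI Λ Λ W Λ bdc) := ⟨fun _ _ => none⟩
    exact ⟨Function.invFun g, Function.invFun_surjective g.injective⟩
  obtain ⟨ι⟩ : #K ≤ #Λ := (hKW.trans hWΛ).le
  let act : Bool × Bool → Λ → Prop := fun _ _ => True
  let nm : Bool × Bool → Λ → Λ → NmI Λ Λ W Λ bdc := fun c a z =>
    if c.2 then e' z else Function.extend ι (e a) (fun _ _ _ => none) z
  have hG : Good (GI act nm) := good_GI
  have hL : Luz (GI act nm) ℵ₁ (ff 0) fun n => 2 ^ n := by
    refine luz hG isRegular_aleph_one aleph0_lt_aleph_one (bb (ff 1)) (ff 0) (fun n => 2 ^ n) ?_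
      (growth 0)
    intro j b hj
    cases j with
    | co z => exact absurd hj (by simp [bdI])
    | it c β a =>
      obtain ⟨c1, n⟩ := c
      cases c1 with
      | false => exact absurd hj (by simp [bdI, bdc])
      | true =>
        have hb : b = bb fun n => n := (Option.some_injective _ hj).symm
        rw [hb]
        exact Or.inl (bb_id_le 1)
  have hinjΛ : Function.Injective (fun k : Λ => (Ix.co k : Ix Λ (Bool × Bool) W Λ)) := by
    intro k k' h
    injection h
  have hinjK : Function.Injective (fun k : K => (Ix.co (ι k) : Ix Λ (Bool × Bool) W Λ)) :=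
    hinjΛ.comp ι.injective
  have hccc : CCC (GI act nm) :=
    ccc_of_luz hL (K := K) hK.ge (fun k => .co (ι k)) hinjK (fun _ => rfl)
  have hreq : ∀ (c : Bool) (x : K → NmI Λ Λ W Λ bdc), ∃ (β : W) (a : Λ),
      ∀ k, ∃ z, (GI act nm).req (.it (c, false) β a) z = some (x k) := by
    intro c x
    obtain ⟨β, hβ⟩ := exists_rank (le_refl #K) hK0.le (fun ι hι f => bounded hK0.le hι f) x
    obtain ⟨a, ha⟩ := he x
    refine ⟨β, a, fun k => ⟨ι k, ?_⟩⟩
    have h1 : nm (c, false) a (ι k) = x k := by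
      show Function.extend ι (e a) (fun _ _ _ => none) (ι k) = x k
      rw [ι.injective.extend_apply, ha]
    have h2 : Supp {i | rkI i < (β : WithBot W)} (nm (c, false) a (ι k)) := by
      rw [h1]; exact hβ k
    rw [req_it (act := act) (c := (c, false)) (z := ι k) trivial h2, h1]
  have hreq' : ∀ (c : Bool) (a : Λ) (x : NmI Λ Λ W Λ bdc), ∃ (β : W),
      ∃ z, (GI act nm).req (.it (c, true) β a) z = some x := by
    intro c a x
    obtain ⟨β, hβ⟩ := exists_rank (ι := Unit) (c := #K) (by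
      rw [mk_fintype]; simpa using Cardinal.one_le_aleph0.trans hK0.le) hK0.le
      (fun ι hι f => bounded hK0.le hι f) (fun _ => x)
    obtain ⟨z, hz⟩ := he' x
    refine ⟨β, z, ?_⟩
    have h1 : nm (c, true) a z = x := hz
    have h2 : Supp {i | rkI i < (β : WithBot W)} (nm (c, true) a z) := by
      rw [h1]; exact hβ ()
    rw [req_it (act := act) (c := (c, true)) (z := z) trivial h2, h1]
  let a0 : Λ := (∅ : Set W)
  refine ⟨K, W, Λ, PP (GI act nm), inferInstance, hW0, ⟨(Cond.one : Cond Λ (bdI Λ W Λ bdc))⟩,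
    ?_, ?_⟩
  · intro A hA
    by_contra hcon
    obtain ⟨p, hp, q, hq, hpq, r, h1, h2⟩ := hccc A hcon
    exact hA p hp q hq hpq ⟨r, h1, h2⟩
  · intro p
    refine ⟨?_, ?_, ?_, ?_, ?_, ?_⟩
    · refine forced_notCap hL K Unit (fun k => .co (ι k)) hinjK (fun _ => rfl) ?_ p
      intro F
      exact large_fiber isRegular_aleph_one hK.ge
        (lt_of_le_of_lt mk_le_aleph0 aleph0_lt_aleph_one) F
    · refine forced_notCap hL Λ W (fun k => .co k) hinjΛ (fun _ => rfl) ?_ p
      intro F
      refine large_fiber' (hK0.trans hKW) hWΛ ?_ F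
      rw [mk_prod, lift_id, lift_id, mk_nat]
      exact (mul_aleph0_eq hW0).le
    · refine forced_cap hG.supp hccc K _ (fun x => ?_) p
      obtain ⟨β, a, h⟩ := hreq true x
      exact ⟨.it (true, false) β a, rfl, h⟩
    · refine forced_dom hG.supp hccc K (fun x => ?_) p
      obtain ⟨β, a, h⟩ := hreq false x
      exact ⟨.it (false, false) β a, rfl, h⟩
    · refine forced_capAll hG.supp hccc W _ (fun β => .it (true, true) β a0) (fun _ => rfl)
        (fun x => ?_) p
      exact hreq' true a0 x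
    · refine forced_domAll hG.supp hccc W (fun β => .it (false, true) β a0) (fun _ => rfl)
        (fun x => ?_) p
      exact hreq' false a0 x

end Pool.Agent.TH777.Y
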