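import Pool.Agent.TH777.Y.Book
import Pool.Agent.TH777.Y.Forced
import Pool.Agent.TH777.Y.Amb

/-!
# Infinitely many additivities
-/

set_option autoImplicit false
set_option linter.unusedSectionVars false

namespace Pool.Agent.TH777.Y

open Classical Cardinal Pool.Agent.Helper669.Forcing

/-- the cardinalities `ℵ_{m+1}` -/
noncomputable def kap : ℕ → Cardinal.{0}
  | 0 => ℵ₁
  | m + 1 => Order.succ (kap m)

theorem aleph0_lt_kap (m : ℕ) : ℵ₀ < kap m := by
  induction m with
  | zero => exact aleph0_lt_aleph_one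
  | succ m ih => exact ih.trans (Order.lt_succ _)

theorem kap_regular (m : ℕ) : (kap m).IsRegular := by
  cases m with
  | zero => exact isRegular_aleph_one
  | succ m => exact isRegular_succ (aleph0_lt_kap m).le

theorem kap_strictMono : StrictMono kap :=
  strictMono_nat_of_lt_succ fun _ => Order.lt_succ _

theorem exists_forcing : ∃ (K : ℕ → Type) (P : Type) (_ : Preorder P), Nonempty P ∧
    (∀ A : Set P, (∀ p ∈ A, ∀ q ∈ A, p ≠ q → ¬ ∃ r, r ≤ p ∧ r ≤ q) → A.Countable) ∧
    ∀ p : P, p ∈ PhiHolds P K ff := by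
  let K : ℕ → Type := fun m => (kap m).ord.ToType
  have hK : ∀ m, #(K m) = kap m := fun m => Cardinal.mk_ord_toType _
  let M : Type := Σ m, K m
  let W : Type := (Order.succ #M).ord.ToType
  let Λ : Type := Set W
  have hMK : ∀ m, #(K m) ≤ #M := fun m =>
    Cardinal.mk_le_of_injective (f := fun k : K m => (⟨m, k⟩ : M)) sigma_mk_injective
  have hM0 : ℵ₀ < #M := by
    have := hMK 0
    rw [hK] at this
    exact (aleph0_lt_kap 0).trans_le this
  have hW : #W = Order.succ #M := Cardinal.mk_ord_toType _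
  have hMW : #M < #W := by
    rw [hW]; exact Order.lt_succ _
  have hW0 : ℵ₀ ≤ #W := (hM0.trans hMW).le
  have hΛ : #Λ = 2 ^ #W := Cardinal.mk_set
  have hWΛ : #W < #Λ := by
    rw [hΛ]; exact Cardinal.cantor _
  have hΛ0 : ℵ₀ ≤ #Λ := hW0.trans hWΛ.le
  have hpow : ∀ a : Cardinal.{0}, a ≠ 0 → a ≤ #W → #Λ ^ a = #Λ := by
    intro a ha0 ha
    rw [hΛ, ← Cardinal.power_mul, Cardinal.mul_eq_left hW0 ha ha0]
  let bdc : Bool × ℕ → Option (ℕ → ℕ) := fun c => if c.1 then some (bb (ff (c.2 + 1))) else none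
  have hN : #(NmI M M W Λ bdc) ≤ #Λ :=
    mk_NmI (hMW.trans hWΛ).le hΛ0 (hpow _ aleph0_ne_zero hW0) (hMW.trans hWΛ).le mk_le_aleph0
      hWΛ.le
  obtain ⟨e, he⟩ : ∃ e : Λ → (M → NmI M M W Λ bdc), Function.Surjective e := by
    have h1 : #(M → NmI M M W Λ bdc) ≤ #Λ := by
      rw [← Cardinal.power_def]
      conv_rhs => rw [← hpow #M (aleph0_pos.trans hM0).ne' hMW.le]
      exact Cardinal.power_le_power_right hN
    obtain ⟨g⟩ := h1
    have : Nonempty (M → NmI M M W Λ bdc) := ⟨fun _ _ _ => none⟩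
    exact ⟨Function.invFun g, Function.invFun_surjective g.injective⟩
  let act : Bool × ℕ → M → Prop := fun c z => z.1 = c.2
  let nm : Bool × ℕ → Λ → M → NmI M M W Λ bdc := fun _ a z => e a z
  have hG : Good (GI act nm) := good_GI
  -- the Luzin property at all levels
  have hL : ∀ m, Luz (GI act nm) (kap m) (ff m) fun n => 2 ^ n := by
    intro m
    refine luz hG (kap_regular m) (aleph0_lt_kap m) (bb (ff (m + 1))) (ff m) (fun n => 2 ^ n) ?_
      (growth m)
    intro j b hj
    cases j with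
    | co z => exact absurd hj (by simp [bdI])
    | it c β a =>
      obtain ⟨c1, n⟩ := c
      cases c1 with
      | false => exact absurd hj (by simp [bdI, bdc])
      | true =>
        have hb : b = bb (ff (n + 1)) := (Option.some_injective _ hj).symm
        rw [hb]
        rcases le_or_gt m n with hmn | hmn
        · exact Or.inl (bb_mono (ff_anti (by omega)))
        · right
          refine lt_of_le_of_lt (b := #(K n)) ?_ (by rw [hK]; exact kap_strictMono hmn)
          have h1 : {z : M | (GI act nm).req (.it (true, n) β a) z ≠ none} ⊆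
              Set.range (fun k : K n => (⟨n, k⟩ : M)) := by
            rintro ⟨n', k⟩ hz
            have h2 : n' = n := req_small (act := act) (c := (true, n)) (z := ⟨n', k⟩) hz
            subst h2
            exact ⟨k, rfl⟩
          exact (mk_le_mk_of_subset h1).trans mk_range_le
  have hinj : ∀ m, Function.Injective (fun k : K m => (Ix.co ⟨m, k⟩ : Ix M (Bool × ℕ) W Λ)) := by
    intro m k k' h
    injection h with h
    exact sigma_mk_injective h
  have hccc : CCC (GI act nm) :=
    ccc_of_luz (hL 0) (K := K 0) (hK 0).ge (fun k => .co ⟨0, k⟩) (hinj 0) (fun _ => rfl)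
  have hreq : ∀ (m : ℕ) (c : Bool) (x : K m → NmI M M W Λ bdc), ∃ (β : W) (a : Λ),
      ∀ k, ∃ z, (GI act nm).req (.it (c, m) β a) z = some (x k) := by
    intro m c x
    obtain ⟨β, hβ⟩ := exists_rank (hMK m) hM0.le (fun ι hι f => bounded hM0.le hι f) x
    obtain ⟨a, ha⟩ := he fun z => if h : z.1 = m then x (h ▸ z.2) else fun _ _ => none
    refine ⟨β, a, fun k => ⟨⟨m, k⟩, ?_⟩⟩
    have h1 : nm (c, m) a ⟨m, k⟩ = x k := by
      show e a ⟨m, k⟩ = x k
      rw [ha]
      simp
    have h2 : Supp {i | rkI i < (β : WithBot W)} (nm (c, m) a ⟨m, k⟩) := by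
      rw [h1]; exact hβ k
    rw [req_it (act := act) (c := (c, m)) (z := ⟨m, k⟩) rfl h2, h1]
  refine ⟨K, PP (GI act nm), inferInstance, ⟨(Cond.one : Cond M (bdI M W Λ bdc))⟩, ?_, ?_⟩
  · intro A hA
    by_contra hcon
    obtain ⟨p, hp, q, hq, hpq, r, h1, h2⟩ := hccc A hcon
    exact hA p hp q hq hpq ⟨r, h1, h2⟩
  · intro p m
    refine ⟨?_, ?_, ?_⟩
    · refine forced_notCap (hL m) (K m) Unit (fun k => .co ⟨m, k⟩) (hinj m) (fun _ => rfl) ?_ p
      intro F
      exact large_fiber (kap_regular m) (hK m).ge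
        (lt_of_le_of_lt mk_le_aleph0 (aleph0_lt_kap m)) F
    · refine forced_cap hG.supp hccc (K m) _ (fun x => ?_) p
      obtain ⟨β, a, h⟩ := hreq m true x
      exact ⟨.it (true, m) β a, rfl, h⟩
    · refine forced_dom hG.supp hccc (K m) (fun x => ?_) p
      obtain ⟨β, a, h⟩ := hreq m false x
      exact ⟨.it (false, m) β a, rfl, h⟩

end Pool.Agent.TH777.Y
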