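import Pool.Agent.TH777.Y.Basic

/-!
# Merging of many conditions

Conditions whose supports form a delta-system with root `R`, with equal stems on the root, are
merged. At a root coordinate which is restricted by a slowly growing bound, this is possible for
a large part of the conditions only.
-/

set_option autoImplicit false
set_option linter.unusedSectionVars false

namespace Pool.Agent.TH777.Y

open Classical

variable {M I W : Type} {bd : I → Option (ℕ → ℕ)} [LinearOrder W] [WellFoundedLT W]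
  {Γ : Par M W bd}

/-- the loss at one root coordinate -/
def EE (b : ℕ → ℕ) (L N : ℕ) : ℕ := N * 2 ^ (∑ i ∈ Finset.range (N * L), b i)

theorem le_EE (b : ℕ → ℕ) (L N : ℕ) : N ≤ EE b L N :=
  Nat.le_mul_of_pos_right _ (by positivity)

theorem le_EE_iter (b : ℕ → ℕ) (L r N : ℕ) : N ≤ (EE b L)^[r] N := by
  induction r generalizing N with
  | zero => exact le_rfl
  | succ r ih =>
    rw [Function.iterate_succ_apply]
    exact (le_EE b L N).trans (ih _)

theorem getD_append_map {s : List (Finset ℕ)} {N i : ℕ} (f : ℕ → Finset ℕ) (h1 : s.length ≤ i)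
    (h2 : i < s.length + N) : (s ++ (List.range N).map f).getD i ∅ = f (i - s.length) := by
  rw [List.getD_append_right _ _ _ _ h1, List.getD_eq_getElem _ _ (by simp; omega)]
  simp

/-- finitely many values can be decided -/
theorem Val.decideF {β : Type} {T : Set I} (hT : Low Γ T) (F : Finset β)
    (X : β → Option (Nm M bd)) (n : β → ℕ) (t : Cond M bd) :
    ∃ t', le Γ T t' t ∧ ∀ b ∈ F, ∀ x, X b = some x →
      ∃ v, Val (le Γ T) t' x (n b) v := by
  induction F using Finset.induction_on with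
  | empty => exact ⟨t, le_refl' T t, fun b h => absurd h (Finset.notMem_empty b)⟩
  | insert b F _ ih =>
    obtain ⟨t1, h1, h2⟩ := ih
    by_cases hb : ∃ x, X b = some x
    · obtain ⟨x, hb⟩ := hb
      obtain ⟨t2, h3, v, hv⟩ := Val.dense (Γ := Γ) hT t1 x (n b)
      refine ⟨t2, le_trans' hT h3 h1, fun b' h x' hx' => ?_⟩
      rcases Finset.mem_insert.1 h with rfl | h
      · rw [hb] at hx'
        have := Option.some_injective _ hx'
        rw [← this]
        exact ⟨v, hv⟩
      · obtain ⟨w, hw⟩ := h2 b' h x' hx'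
        exact ⟨w, hw.mono hT h3⟩
    · refine ⟨t1, h1, fun b' h x' hx' => ?_⟩
      rcases Finset.mem_insert.1 h with rfl | h
      · exact absurd ⟨x', hx'⟩ hb
      · exact h2 b' h x' hx'

/-- merging at one coordinate -/
theorem step_top {α : Type} (b0 : ℕ → ℕ) (L : ℕ) (p : α → Cond M bd) (N : ℕ)
    (hN : 1 ≤ N) (j : I) (Z : Finset α) (hZ : EE b0 L N ≤ Z.card) (q : Cond M bd)
    (h1 : ∀ a ∈ Z, ∀ b ∈ Z, (p a j).stem = (p b j).stem)
    (h2 : ∀ a ∈ Z, (p a j).stem.length ≤ L)
    (h3 : ∀ b, bd j = some b → (∀ i, b i ≤ b0 i) ∨ ∀ a ∈ Z, ∀ a' ∈ Z, ∀ k, Γ.req j k ≠ none →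
      k ∈ (p a j).pr → k ∈ (p a' j).pr) :
    ∃ Z' ⊆ Z, N ≤ Z'.card ∧ ∃ q', le Γ (below Γ (Γ.rk j)) q' q ∧ ∃ V : CV M,
      (∀ b, bd j = some b → Legit b V) ∧ ∀ P : Cond M bd, P j = V →
        le Γ (below Γ (Γ.rk j)) P q' → ∀ a ∈ Z', ext Γ j P (p a) := by
  have hlow : Low Γ (below Γ (Γ.rk j)) := low_below _
  obtain ⟨a1, ha1⟩ : Z.Nonempty := by
    rw [← Finset.card_pos]
    exact lt_of_lt_of_le hN ((le_EE b0 L N).trans hZ)
  have hL1 : L ≤ N * L := Nat.le_mul_of_pos_left _ hN
  rcases hbd : bd j with _ | b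
  · -- unrestricted
    refine ⟨Z, Finset.Subset.refl _, (le_EE b0 L N).trans hZ, q, le_refl' _ q,
      ⟨(p a1 j).stem, Z.biUnion fun a => (p a j).pr⟩, fun b hb => absurd hb (by simp),
      fun P hP _ a ha => ?_⟩
    refine ext_same_stem ?_ ?_
    · rw [hP]
      exact h1 a ha a1 ha1
    · rw [hP]
      exact fun k hk => Finset.mem_biUnion.2 ⟨a, ha, hk⟩
  -- restricted: decide the values
  obtain ⟨q', hq', hd⟩ := Val.decideF (Γ := Γ) hlow
    ((Z.biUnion fun a => (p a j).pr) ×ˢ Finset.range (N * L))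
    (fun z : M × ℕ => Γ.req j z.1) (fun z => z.2) q
  have hd' : ∀ k i, ∃ v, k ∈ (Z.biUnion fun a => (p a j).pr) → i < N * L → ∀ x,
      Γ.req j k = some x → Val (le Γ (below Γ (Γ.rk j))) q' x i v := by
    intro k i
    by_cases hk : k ∈ (Z.biUnion fun a => (p a j).pr) ∧ i < N * L ∧ ∃ x, Γ.req j k = some x
    · obtain ⟨hk, hi, x, hx⟩ := hk
      obtain ⟨v, hv⟩ := hd (k, i) (Finset.mem_product.2 ⟨hk, Finset.mem_range.2 hi⟩) x hx
      refine ⟨v, fun _ _ x' hx' => ?_⟩
      rw [hx] at hx'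
      rw [← Option.some_injective _ hx']
      exact hv
    · exact ⟨0, fun h4 h5 x hx => absurd ⟨h4, h5, x, hx⟩ hk⟩
  choose v hv using hd'
  -- the patterns
  let e : α → ℕ → Finset ℕ := fun a i =>
    (((p a j).pr.filter fun k => Γ.req j k ≠ none).image fun k => v k i).filter fun n => n < b i
  obtain ⟨Z2, hZ2, hc2, he⟩ : ∃ Z2 ⊆ Z, N ≤ Z2.card ∧ ∀ a ∈ Z2, ∀ a' ∈ Z2, ∀ i < N * L,
      e a i = e a' i := by
    rcases h3 b hbd with h3 | h3
    · -- slow
      let t : Finset (Fin (N * L) → Finset ℕ) :=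
        Fintype.piFinset fun i : Fin (N * L) => (Finset.range (b0 i)).powerset
      have ht : t.card = 2 ^ (∑ i ∈ Finset.range (N * L), b0 i) := by
        simp only [t, Fintype.card_piFinset, Finset.card_powerset, Finset.card_range]
        rw [Finset.prod_pow_eq_pow_sum]
        congr 1
        exact Fin.sum_univ_eq_sum_range (fun i => b0 i) (N * L)
      obtain ⟨y, hy, hyc⟩ := Finset.exists_le_card_fiber_of_mul_le_card_of_maps_to
        (s := Z) (t := t) (f := fun a => fun i : Fin (N * L) => e a i) (n := N) (by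
          intro a _
          rw [Fintype.mem_piFinset]
          intro i
          rw [Finset.mem_powerset]
          intro n hn
          have := (Finset.mem_filter.1 hn).2
          exact Finset.mem_range.2 (lt_of_lt_of_le this (h3 i))) (by
          rw [← Finset.card_pos, ht]; positivity) (by
          rw [ht, mul_comm]; exact hZ)
      refine ⟨_, Finset.filter_subset _ _, hyc, ?_⟩
      intro a ha a' ha' i hi
      have h5 := (Finset.mem_filter.1 ha).2
      have h6 := (Finset.mem_filter.1 ha').2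
      have h7 := (congrFun h5 ⟨i, hi⟩).trans (congrFun h6 ⟨i, hi⟩).symm
      exact h7
    · -- few requirements
      refine ⟨Z, Finset.Subset.refl _, (le_EE b0 L N).trans hZ, ?_⟩
      intro a ha a' ha' i _
      have h5 : (p a j).pr.filter (fun k => Γ.req j k ≠ none) =
          (p a' j).pr.filter (fun k => Γ.req j k ≠ none) := by
        ext k
        simp only [Finset.mem_filter]
        exact ⟨fun h => ⟨h3 a ha a' ha' k h.2 h.1, h.2⟩, fun h => ⟨h3 a' ha' a ha k h.2 h.1, h.2⟩⟩
      simp only [e, h5]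
  obtain ⟨Z3, hZ3, hc3⟩ := Finset.exists_subset_card_eq hc2
  obtain ⟨a0, ha0⟩ : Z3.Nonempty := by
    rw [← Finset.card_pos]
    omega
  have hZ3Z : Z3 ⊆ Z := hZ3.trans hZ2
  have ha0Z : a0 ∈ Z := hZ3Z ha0
  obtain ⟨ℓ, hℓ⟩ : ∃ ℓ, ℓ = (p a0 j).stem.length := ⟨_, rfl⟩
  have hℓL : ℓ ≤ L := hℓ ▸ h2 a0 ha0Z
  have hlen : ∀ a ∈ Z, (p a j).stem.length = ℓ := fun a ha => by rw [h1 a ha a0 ha0Z, hℓ]
  have hcard : ∀ a ∈ Z, (p a j).pr.card ≤ ℓ := fun a ha => by
    have := ((p a).legit hbd).1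
    rwa [hlen a ha] at this
  refine ⟨Z3, hZ3Z, hc3.ge, q', hq', ⟨(p a0 j).stem ++ (List.range (N * L - ℓ)).map
    (fun s => e a0 (ℓ + s)), Z3.biUnion fun a => (p a j).pr⟩, ?_, ?_⟩
  · -- legitimate
    intro b' hb'
    obtain rfl := Option.some_injective _ hb'
    have hl0 := (p a0).legit hbd
    refine ⟨?_, fun i hi => ?_⟩
    · show (Z3.biUnion fun a => (p a j).pr).card ≤ _
      rw [List.length_append, List.length_map, List.length_range, ← hℓ]
      have h5 : (Z3.biUnion fun a => (p a j).pr).card ≤ N * L := by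
        refine Finset.card_biUnion_le.trans ?_
        refine (Finset.sum_le_card_nsmul _ _ L fun a ha => ?_).trans ?_
        · exact (hcard a (hZ3Z ha)).trans hℓL
        · rw [hc3, smul_eq_mul]
      omega
    · simp only at hi ⊢
      rw [List.length_append, List.length_map, List.length_range] at hi
      by_cases hi' : i < (p a0 j).stem.length
      · rw [List.getD_append _ _ _ _ hi']
        exact hl0.2 i hi'
      · rw [getD_append_map _ (not_lt.1 hi') hi]
        have h6 : (e a0 (ℓ + (i - (p a0 j).stem.length))).card ≤ (p a0 j).pr.card :=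
          (Finset.card_filter_le _ _).trans (Finset.card_image_le.trans (Finset.card_filter_le _ _))
        have h7 := hcard a0 ha0Z
        refine ⟨by omega, fun n hn => ?_⟩
        have h8 := (Finset.mem_filter.1 hn).2
        have h9 : ℓ + (i - (p a0 j).stem.length) = i := by omega
        rwa [h9] at h8
  · intro P hP hPq a ha
    have haZ := hZ3Z ha
    have hst := h1 a haZ a0 ha0Z
    rw [ext_iff, hP]
    refine ⟨by rw [hst]; exact List.prefix_append _ _,
      fun k hk => Finset.mem_biUnion.2 ⟨a, ha, hk⟩, ?_⟩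
    intro k hk x hx i hi hi' t ht n hn hnb
    rw [hst] at hi
    simp only at hi' ⊢
    rw [List.length_append, List.length_map, List.length_range] at hi'
    have hiN : i < N * L := by omega
    rw [getD_append_map _ hi hi']
    have h9 : ℓ + (i - (p a0 j).stem.length) = i := by omega
    rw [h9, he a0 (hZ3 ha0) a (hZ3 ha) i hiN]
    have hkU : k ∈ Z.biUnion fun a => (p a j).pr := Finset.mem_biUnion.2 ⟨a, haZ, hk⟩
    have h10 := (hv k i hkU hiN x hx).mono hlow (le_trans' hlow ht hPq)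
    have h11 := hn.unique h10
    refine Finset.mem_filter.2 ⟨Finset.mem_image.2 ⟨k, Finset.mem_filter.2 ⟨hk, ?_⟩, h11.symm⟩, ?_⟩
    · rw [hx]; simp
    · exact hnb b hbd

/-- merging -/
theorem merge {α : Type} (b0 : ℕ → ℕ) (L : ℕ) (p : α → Cond M bd) (r : ℕ) :
    ∀ (N : ℕ) (_ : 1 ≤ N) (R : Finset I) (_ : R.card = r) (T : Set I) (_ : Low Γ T)
      (Z : Finset α) (_ : (EE b0 L)^[r] N ≤ Z.card)
      (_ : ∀ i ∈ T, i ∉ R → ∀ a ∈ Z, ∀ b ∈ Z, a ≠ b → p a i = CV.top ∨ p b i = CV.top)
      (_ : ∀ j ∈ R, ∀ a ∈ Z, ∀ b ∈ Z, (p a j).stem = (p b j).stem)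
      (_ : ∀ j ∈ R, ∀ a ∈ Z, (p a j).stem.length ≤ L)
      (_ : ∀ j ∈ R, ∀ b, bd j = some b → (∀ i, b i ≤ b0 i) ∨ ∀ a ∈ Z, ∀ a' ∈ Z, ∀ k,
        Γ.req j k ≠ none → k ∈ (p a j).pr → k ∈ (p a' j).pr),
      ∃ Z' ⊆ Z, N ≤ Z'.card ∧ ∃ q : Cond M bd, ∀ a ∈ Z', le Γ T q (p a) := by
  induction r with
  | zero =>
    intro N hN R hR T hT Z hZ h1 _ _ _
    rw [Finset.card_eq_zero] at hR
    subst hR
    let f : I → CV M := fun i =>
      if h : i ∈ T ∧ ∃ a ∈ Z, p a i ≠ CV.top then p h.2.choose i else CV.top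
    have hfin : {i | f i ≠ CV.top}.Finite := by
      refine Set.Finite.subset
        (Set.Finite.biUnion (Finset.finite_toSet Z) fun a _ => (p a).2.1) ?_
      intro i hi
      have hi' : f i ≠ CV.top := hi
      simp only [f] at hi'
      split_ifs at hi' with h
      · simp only [Set.mem_iUnion]
        exact ⟨_, h.2.choose_spec.1, hi'⟩
      · exact absurd rfl hi'
    have hleg : ∀ i b, bd i = some b → Legit b (f i) := by
      intro i b hb
      simp only [f]
      split_ifs with h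
      · exact (p _).legit hb
      · exact legit_top _
    refine ⟨Z, Finset.Subset.refl _, hZ, ⟨f, hfin, hleg⟩, fun a ha j hj => ?_⟩
    by_cases htop : p a j = CV.top
    · exact ext_top htop
    have hex : j ∈ T ∧ ∃ a ∈ Z, p a j ≠ CV.top := ⟨hj, a, ha, htop⟩
    apply ext_of_eq
    show f j = p a j
    simp only [f, dif_pos hex]
    by_cases hab : hex.2.choose = a
    · rw [hab]
    · rcases h1 j hj (Finset.notMem_empty _) _ hex.2.choose_spec.1 a ha hab with h | h
      · exact absurd h hex.2.choose_spec.2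
      · exact absurd h htop
  | succ r ih =>
    intro N hN R hR T hT Z hZ h1 h2 h3 h4
    rw [Function.iterate_succ_apply] at hZ
    have hEN : 1 ≤ EE b0 L N := hN.trans (le_EE b0 L N)
    have hne : R.Nonempty := by
      rw [← Finset.card_pos]; omega
    obtain ⟨j, hjR, hjmax⟩ := Finset.exists_max_image R Γ.rk hne
    have hRe : (R.erase j).card = r := by
      rw [Finset.card_erase_of_mem hjR]; omega
    by_cases hjT : j ∈ T
    swap
    · obtain ⟨Z', hZ', hc, q, hq⟩ := ih (EE b0 L N) hEN (R.erase j) hRe T hT Z hZ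
        (fun i hi hi' => h1 i hi fun h => hi' (Finset.mem_erase.2 ⟨fun h' => hjT (h' ▸ hi), h⟩))
        (fun i hi => h2 i (Finset.mem_of_mem_erase hi))
        (fun i hi => h3 i (Finset.mem_of_mem_erase hi))
        (fun i hi => h4 i (Finset.mem_of_mem_erase hi))
      exact ⟨Z', hZ', (le_EE b0 L N).trans hc, q, hq⟩
    -- the lower set below `j`
    obtain ⟨T', hT'def⟩ : ∃ T' : Set I, T' = {i | i ∈ T ∧ Γ.rk i ≤ Γ.rk j ∧ i ≠ j} := ⟨_, rfl⟩
    have hmemT' : ∀ i, i ∈ T' ↔ i ∈ T ∧ Γ.rk i ≤ Γ.rk j ∧ i ≠ j := by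
      intro i; rw [hT'def]; rfl
    have hlowT' : Low Γ T' := by
      intro i hi l hl
      rw [hmemT'] at hi ⊢
      refine ⟨hT i hi.1 l hl, (hl.trans_le hi.2.1).le, ?_⟩
      rintro rfl
      exact absurd (hl.trans_le hi.2.1) (lt_irrefl _)
    have hbT' : below Γ (Γ.rk j) ⊆ T' := by
      intro i hi
      have hi' : Γ.rk i < Γ.rk j := hi
      rw [hmemT']
      refine ⟨hT j hjT i hi', hi'.le, ?_⟩
      rintro rfl
      exact lt_irrefl _ hi'
    obtain ⟨Z1, hZ1, hc1, q1, hq1⟩ := ih (EE b0 L N) hEN (R.erase j) hRe T' hlowT' Z hZ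
        (fun i hi hi' => h1 i ((hmemT' i).1 hi).1 fun h =>
          hi' (Finset.mem_erase.2 ⟨((hmemT' i).1 hi).2.2, h⟩))
        (fun i hi => h2 i (Finset.mem_of_mem_erase hi))
        (fun i hi => h3 i (Finset.mem_of_mem_erase hi))
        (fun i hi => h4 i (Finset.mem_of_mem_erase hi))
    obtain ⟨Z2, hZ2, hc2, q2, hq2, V, hV, hext⟩ := step_top b0 L p N hN j Z1 hc1 q1
      (fun a ha b hb => h2 j hjR a (hZ1 ha) b (hZ1 hb)) (fun a ha => h3 j hjR a (hZ1 ha))
      (fun b hb => (h4 j hjR b hb).imp id fun h a ha a' ha' => h a (hZ1 ha) a' (hZ1 ha'))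
    have hlow : Low Γ (below Γ (Γ.rk j)) := low_below _
    have hZ2Z : Z2 ⊆ Z := hZ2.trans hZ1
    -- the condition
    let f : I → CV M := fun i => if Γ.rk i < Γ.rk j then q2 i else if i = j then V
      else if i ∈ T' then q1 i
      else if h : i ∈ T ∧ ∃ a ∈ Z2, p a i ≠ CV.top then p h.2.choose i else CV.top
    have hf1 : ∀ i, Γ.rk i < Γ.rk j → f i = q2 i := fun i hi => if_pos hi
    have hf2 : f j = V := by simp [f]
    have hf3 : ∀ i ∈ T', ¬ Γ.rk i < Γ.rk j → f i = q1 i := by
      intro i hi hi'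
      simp only [f, if_neg hi', if_neg ((hmemT' i).1 hi).2.2, if_pos hi]
    have hf4 : ∀ i ∉ T', i ≠ j → f i =
        if h : i ∈ T ∧ ∃ a ∈ Z2, p a i ≠ CV.top then p h.2.choose i else CV.top := by
      intro i hi hij
      have : ¬ Γ.rk i < Γ.rk j := fun h => hi (hbT' h)
      simp only [f, if_neg this, if_neg hij, if_neg hi]
    have hfin : {i | f i ≠ CV.top}.Finite := by
      refine Set.Finite.subset (((q2.2.1.union (Set.finite_singleton j)).union q1.2.1).union
        (Set.Finite.biUnion (Finset.finite_toSet Z2) fun a _ => (p a).2.1)) ?_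
      intro i hi
      have hi' : f i ≠ CV.top := hi
      by_cases hc1 : Γ.rk i < Γ.rk j
      · rw [hf1 i hc1] at hi'
        exact Or.inl (Or.inl (Or.inl hi'))
      by_cases hc2 : i = j
      · exact Or.inl (Or.inl (Or.inr hc2))
      by_cases hc3 : i ∈ T'
      · rw [hf3 i hc3 hc1] at hi'
        exact Or.inl (Or.inr hi')
      rw [hf4 i hc3 hc2] at hi'
      split_ifs at hi' with h
      · right
        simp only [Set.mem_iUnion]
        exact ⟨_, h.2.choose_spec.1, hi'⟩
      · exact absurd rfl hi'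
    have hleg : ∀ i b, bd i = some b → Legit b (f i) := by
      intro i b hb
      by_cases hc1 : Γ.rk i < Γ.rk j
      · rw [hf1 i hc1]
        exact q2.legit hb
      by_cases hc2 : i = j
      · subst hc2
        rw [hf2]
        exact hV b hb
      by_cases hc3 : i ∈ T'
      · rw [hf3 i hc3 hc1]
        exact q1.legit hb
      rw [hf4 i hc3 hc2]
      split_ifs with h
      · exact (p _).legit hb
      · exact legit_top _
    obtain ⟨P, hP⟩ : ∃ P : Cond M bd, ∀ i, P i = f i := ⟨⟨f, hfin, hleg⟩, fun _ => rfl⟩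
    have hPq2 : le Γ (below Γ (Γ.rk j)) P q2 := le_of_eq hlow fun i hi => by rw [hP, hf1 i hi]
    have hPq1 : le Γ (below Γ (Γ.rk j)) P q1 := le_trans' hlow hPq2 hq2
    refine ⟨Z2, hZ2Z, hc2, P, fun a ha i hi => ?_⟩
    have haZ1 := hZ2 ha
    by_cases hc1 : Γ.rk i < Γ.rk j
    · exact le_trans' hlow hPq1 (le_mono hbT' (hq1 a haZ1)) i hc1
    by_cases hc2 : i = j
    · subst hc2
      exact hext P (by rw [hP, hf2]) hPq2 a ha
    by_cases hc3 : i ∈ T'
    · have hle : Γ.rk i ≤ Γ.rk j := ((hmemT' i).1 hc3).2.1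
      have heq : Γ.rk i = Γ.rk j := le_antisymm hle (not_lt.1 hc1)
      refine (ext_refl_trans i).2 P q1 (p a) ?_ (ext_of_eq (by rw [hP, hf3 i hc3 hc1]))
        (hq1 a haZ1 i hc3)
      rw [heq]
      exact hPq1
    by_cases htop : p a i = CV.top
    · exact ext_top htop
    have hex : i ∈ T ∧ ∃ a ∈ Z2, p a i ≠ CV.top := ⟨hi, a, ha, htop⟩
    apply ext_of_eq
    rw [hP, hf4 i hc3 hc2, dif_pos hex]
    by_cases hab : hex.2.choose = a
    · rw [hab]
    · have hiR : i ∉ R := by
        intro h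
        apply hc3
        rw [hmemT']
        exact ⟨hi, hjmax i h, hc2⟩
      rcases h1 i hi hiR _ (hZ2Z hex.2.choose_spec.1) a (hZ2Z ha) hab with h | h
      · exact absurd h hex.2.choose_spec.2
      · exact absurd h htop

end Pool.Agent.TH777.Y
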